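import Pool.Agent.Helper505.HCProofs

namespace Pool.Agent.Results.MP_d19687_ag.AFullHomogeneous

open Pool.Agent.Helper505.HC

/-- Main result. -/
theorem result :
    (∀ (W : Type) [NormedAddCommGroup W] [NormedSpace ℂ W] [FiniteDimensional ℂ W] (Z : Set W),
      Submodule.span ℂ Z = ⊤ →
        (∀ k : ℕ, 2 ≤ k → (HomogeneousModel k W Z ↔ HasSquareZero W Z)) ∧
        (HomogeneousFibre W Z → HasSquareZero W Z) ∧
        (HasSquareZero W Z → OccursInAllOrders W Z ∧ ContainsLine W Z)) ∧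
    ¬ HasSquareZero (Fin 3 → ℂ) conic ∧
    (∀ m n : ℕ, 1 ≤ m → 2 ≤ n → OccursInAllOrders (Fin m → Fin n → ℂ) (segreCone m n)) ∧
    (∀ q : ℕ, 4 ≤ q → OccursInAllOrders (Fin q → ℂ) (quadricCone q)) := by
  refine ⟨fun W _ _ _ Z h1 => ⟨fun k hk => ⟨fun h => squareZero_of_model W Z k hk h,
    fun h => model_of_squareZero W Z k hk h⟩, fun h => hasSquareZero_of_homogeneous W Z h1 h,
    fun h => ⟨?_, line_of_squareZero W Z h1 h⟩⟩, ?_, ?_, ?_⟩
  · obtain ⟨A, hA0, hA, hZ⟩ := h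
    exact ⟨h1, fun k => main_theorem Z A hA0 hA hZ k⟩
  · rintro ⟨A, hA0, hA, hZ⟩
    exact hA0 (conic_none A hA hZ)
  · intro m n hm hn
    obtain ⟨A, h2, h3, h4⟩ := segre m n hm hn
    exact ⟨segre_span m n, fun k => main_theorem _ A h2 h3 (fun s z hz => h4 s z hz) k⟩
  · intro q hq
    obtain ⟨A, h2, h3, h4⟩ := quadric q hq
    refine ⟨quadric_span q hq, fun k => main_theorem _ A ?_ h3 (fun s z hz => h4 s z hz) k⟩
    rintro rfl
    rw [LinearMap.range_zero, finrank_bot] at h2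
    omega

end Pool.Agent.Results.MP_d19687_ag.AFullHomogeneous
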