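import Mathlib

namespace Pool.Agent.Results.MP_d19687_ag.SquareZeroSymmetries

open scoped ContDiff

/-- `Generated X F`: `F` is one of the fields `X i` or an iterated Lie bracket of them. -/
inductive Generated {ι E : Type} [NormedAddCommGroup E] [NormedSpace ℂ E] (X : ι → E → E) :
    (E → E) → Prop
  | base (i : ι) : Generated X (X i)
  | bracket (F G : E → E) : Generated X F → Generated X G →
      Generated X (VectorField.lieBracket ℂ F G)

/-- `OccursInOrder W Z k n`: on some complex vector space `E` of dimension `n` there is a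
holomorphic frame map `y ↦ X y`, where `X y : W → T_y E = E` is injective and linear, such that
* the fields `y ↦ X y w` (`w ∈ W`) and their iterated Lie brackets span `T_y E` at every `y`;
* there is a holomorphic vector field `σ`, not identically zero, vanishing at `0` to order at
  least `k + 1`;
* the maps `y ↦ y + s σ(y)` form the flow of `σ`;
* the derivative of each of them maps the cone `X y (Z)` onto the cone `X (y + s σ(y)) (Z)`. -/
def OccursInOrder (W : Type) [NormedAddCommGroup W] [NormedSpace ℂ W] (Z : Set W)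
    (k n : ℕ) : Prop :=
  ∃ (E : Type) (_ : NormedAddCommGroup E) (_ : NormedSpace ℂ E)
    (_ : FiniteDimensional ℂ E) (X : E → W →L[ℂ] E) (σ : E → E),
    Module.finrank ℂ E = n ∧
    ContDiff ℂ ω X ∧ (∀ y, Function.Injective (X y)) ∧
    (∀ y, Submodule.span ℂ {v : E | ∃ F : E → E,
      Generated (fun (w : W) (z : E) => X z w) F ∧ F y = v} = ⊤) ∧
    ContDiff ℂ ω σ ∧ (∃ y, σ y ≠ 0) ∧
    (∃ C : ℝ, ∀ y, ‖y‖ ≤ 1 → ‖σ y‖ ≤ C * ‖y‖ ^ (k + 1)) ∧
    (∀ (s : ℂ) (y : E), σ (y + s • σ y) = σ y) ∧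
    (∀ (s : ℂ) (y : E),
      (fderiv ℂ (fun z => z + s • σ z) y) '' (X y '' Z) = X (y + s • σ y) '' Z)

/-- `Z` spans `W`, and `Z` occurs in every order `k` (on spaces of some dimension). -/
def OccursInAllOrders (W : Type) [NormedAddCommGroup W] [NormedSpace ℂ W] (Z : Set W) : Prop :=
  Submodule.span ℂ Z = ⊤ ∧ ∀ k : ℕ, ∃ n : ℕ, OccursInOrder W Z k n

section aux

open MvPolynomial

/-- iterated derivative of a function along a list of vector fields -/
noncomputable def iterD {E : Type} [NormedAddCommGroup E] [NormedSpace ℂ E] :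
    List (E → E) → (E → ℂ) → (E → ℂ)
  | [], g => g
  | V :: l, g => fun y => fderiv ℂ (iterD l g) y (V y)

/-- a system of `ρ` vector fields with `N` solutions `(f s, p s)` of `X_j f_i = δ_ij p` -/
structure Sys {E : Type} [NormedAddCommGroup E] [NormedSpace ℂ E] {ρ N : ℕ}
    (X : Fin ρ → E → E) (f : Fin N → Fin ρ → E → ℂ) (p : Fin N → E → ℂ) : Prop where
  hX : ∀ i, ContDiff ℂ ω (X i)
  hf : ∀ s i, ContDiff ℂ ω (f s i)
  hp : ∀ s, ContDiff ℂ ω (p s)
  f0 : ∀ s i, f s i 0 = 0
  rel : ∀ s i j y, fderiv ℂ (f s i) y (X j y) = if i = j then p s y else 0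
  hx : ∃ x : Fin ρ → E → ℂ, (∀ i, Differentiable ℂ (x i)) ∧
    ∀ i j y, fderiv ℂ (x i) y (X j y) = if i = j then 1 else 0
  bg : ∀ y, Submodule.span ℂ {v : E | ∃ F : E → E, Generated X F ∧ F y = v} = ⊤
  nd : ∀ y (c : Fin N → ℂ), (∀ l : List (E → E), l ≠ [] → (∀ V ∈ l, Generated X V) →
    ∑ s, c s * iterD l (p s) y = 0) → c = 0

/-- the new space -/
abbrev newE (E : Type) (N : ℕ) : Type := E × ((Fin N → ℂ) × ℂ)

/-- the new fields -/
noncomputable def newX {E : Type} [NormedAddCommGroup E] [NormedSpace ℂ E] {ρ N : ℕ}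
    (X : Fin ρ → E → E) (p : Fin N → E → ℂ) :
    Fin (ρ + 1) → newE E N → newE E N :=
  Fin.cases (fun z => (0, (fun s => p s z.1, 1))) (fun i z => (X i z.1, 0))

/-- the new solutions -/
noncomputable def newf {E : Type} {ρ N N' : ℕ}
    (f : Fin N → Fin ρ → E → ℂ) (P : Fin N' → MvPolynomial (Fin N) ℂ) :
    Fin N' → Fin (ρ + 1) → newE E N → ℂ := fun a =>
  Fin.cases (fun z => eval z.2.1 (P a))
    (fun i z => ∑ s, f s i z.1 * eval z.2.1 (pderiv s (P a)))

/-- the new common derivatives -/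
noncomputable def newp {E : Type} {N N' : ℕ}
    (p : Fin N → E → ℂ) (P : Fin N' → MvPolynomial (Fin N) ℂ) :
    Fin N' → newE E N → ℂ := fun a z => ∑ s, p s z.1 * eval z.2.1 (pderiv s (P a))

/-- the new solutions, on the smaller space (auxiliary) -/
noncomputable def newf0 {E : Type} {ρ N N' : ℕ}
    (f : Fin N → Fin ρ → E → ℂ) (P : Fin N' → MvPolynomial (Fin N) ℂ) :
    Fin N' → Fin (ρ + 1) → E × (Fin N → ℂ) → ℂ := fun a =>
  Fin.cases (fun z => eval z.2 (P a)) (fun i z => ∑ s, f s i z.1 * eval z.2 (pderiv s (P a)))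

theorem eval_hasFDerivAt_aux {N : ℕ} (c : Fin N → ℂ) (v : Fin N → ℂ) :
    (∑ s, c s • (ContinuousLinearMap.proj (R := ℂ) (φ := fun _ : Fin N => ℂ) s)) v =
      ∑ s, c s * v s := by
  rw [ContinuousLinearMap.sum_apply]
  rfl

theorem eval_hasFDerivAt {N : ℕ} (P : MvPolynomial (Fin N) ℂ) (u : Fin N → ℂ) :
    HasFDerivAt (fun v : Fin N → ℂ => eval v P)
      (∑ s, eval u (pderiv s P) • (ContinuousLinearMap.proj (R := ℂ) (φ := fun _ : Fin N => ℂ) s)) u := by
  induction P using MvPolynomial.induction_on with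
  | C a =>
    have h : (∑ s, eval u (pderiv s (C a : MvPolynomial (Fin N) ℂ)) •
        (ContinuousLinearMap.proj (R := ℂ) (φ := fun _ : Fin N => ℂ) s)) = 0 := by
      refine ContinuousLinearMap.ext fun v => ?_
      rw [eval_hasFDerivAt_aux]
      show _ = (0 : ℂ)
      refine Finset.sum_eq_zero fun s _ => ?_
      rw [pderiv_C, map_zero, zero_mul]
    rw [h]
    simp only [eval_C]
    exact hasFDerivAt_const _ _
  | add p q hp hq =>
    have h := hp.add hq
    have e : (∑ s, eval u (pderiv s p) •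
          (ContinuousLinearMap.proj (R := ℂ) (φ := fun _ : Fin N => ℂ) s)) +
        (∑ s, eval u (pderiv s q) •
          (ContinuousLinearMap.proj (R := ℂ) (φ := fun _ : Fin N => ℂ) s)) =
        ∑ s, eval u (pderiv s (p + q)) •
          (ContinuousLinearMap.proj (R := ℂ) (φ := fun _ : Fin N => ℂ) s) := by
      refine ContinuousLinearMap.ext fun v => ?_
      rw [ContinuousLinearMap.add_apply, eval_hasFDerivAt_aux, eval_hasFDerivAt_aux,
        eval_hasFDerivAt_aux, ← Finset.sum_add_distrib]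
      refine Finset.sum_congr rfl fun s _ => ?_
      rw [map_add, map_add, add_mul]
    refine (h.congr_fderiv e).congr_of_eventuallyEq (Filter.Eventually.of_forall fun v => ?_)
    exact map_add (eval v) p q
  | mul_X p n hp =>
    have hX : HasFDerivAt (fun v : Fin N → ℂ => v n)
        (ContinuousLinearMap.proj (R := ℂ) (φ := fun _ : Fin N => ℂ) n) u :=
      hasFDerivAt_apply n u
    have h := hp.mul hX
    have e : eval u p • (ContinuousLinearMap.proj (R := ℂ) (φ := fun _ : Fin N => ℂ) n) +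
        u n • (∑ s, eval u (pderiv s p) •
          (ContinuousLinearMap.proj (R := ℂ) (φ := fun _ : Fin N => ℂ) s)) =
        ∑ s, eval u (pderiv s (p * X n)) •
          (ContinuousLinearMap.proj (R := ℂ) (φ := fun _ : Fin N => ℂ) s) := by
      refine ContinuousLinearMap.ext fun v => ?_
      have e0 : (eval u p • (ContinuousLinearMap.proj (R := ℂ) (φ := fun _ : Fin N => ℂ) n) +
        u n • (∑ s, eval u (pderiv s p) •
          (ContinuousLinearMap.proj (R := ℂ) (φ := fun _ : Fin N => ℂ) s))) v =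
          eval u p * v n + u n * (∑ s, eval u (pderiv s p) •
          (ContinuousLinearMap.proj (R := ℂ) (φ := fun _ : Fin N => ℂ) s)) v := rfl
      rw [e0, eval_hasFDerivAt_aux, eval_hasFDerivAt_aux]
      have e1 : ∀ s, eval u (pderiv s (p * X n)) * v s =
          (if s = n then eval u p * v s else 0) + u n * (eval u (pderiv s p) * v s) := by
        intro s
        rw [Derivation.leibniz, smul_eq_mul, smul_eq_mul, map_add, map_mul, map_mul, eval_X,
          add_mul, mul_assoc (u n)]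
        congr 1
        rw [pderiv_X]
        by_cases hs : s = n
        · subst hs
          rw [Pi.single_eq_same, map_one, mul_one, if_pos rfl]
        · rw [Pi.single_eq_of_ne (Ne.symm hs), map_zero, mul_zero, zero_mul, if_neg hs]
      rw [Finset.sum_congr rfl fun s _ => e1 s, Finset.sum_add_distrib, ← Finset.mul_sum]
      congr 1
      rw [Finset.sum_ite_eq' Finset.univ n, if_pos (Finset.mem_univ n)]
    refine (h.congr_fderiv e).congr_of_eventuallyEq (Filter.Eventually.of_forall fun v => ?_)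
    show eval v (p * X n) = eval v p * v n
    rw [map_mul, eval_X]

theorem eval_contDiff {N : ℕ} (P : MvPolynomial (Fin N) ℂ) :
    ContDiff ℂ ω (fun v : Fin N → ℂ => eval v P) := by
  induction P using MvPolynomial.induction_on with
  | C a => simp only [eval_C]; exact contDiff_const
  | add p q hp hq => simp only [map_add]; exact hp.add hq
  | mul_X p n hp =>
    simp only [map_mul, eval_X]
    exact hp.mul (contDiff_apply ℂ ℂ n)

theorem eval_bound {N R : ℕ} (P : MvPolynomial (Fin N) ℂ) (hP : P.IsHomogeneous R) :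
    ∃ C : ℝ, 0 ≤ C ∧ ∀ u : Fin N → ℂ, ‖eval u P‖ ≤ C * ‖u‖ ^ R := by
  refine ⟨∑ d ∈ P.support, ‖P.coeff d‖, Finset.sum_nonneg fun _ _ => norm_nonneg _, fun u => ?_⟩
  rw [eval_eq', Finset.sum_mul]
  refine (norm_sum_le _ _).trans (Finset.sum_le_sum fun d hd => ?_)
  rw [norm_mul, norm_prod]
  refine mul_le_mul_of_nonneg_left ?_ (norm_nonneg _)
  have hR : ∑ i, d i = R := by
    have h := hP (mem_support_iff.1 hd)
    rw [← h, Finsupp.weight_apply, Finsupp.sum_fintype]
    · simp
    · intro i; simp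
  calc ∏ i, ‖u i ^ d i‖ ≤ ∏ i, ‖u‖ ^ d i := by
        refine Finset.prod_le_prod (fun i _ => norm_nonneg _) fun i _ => ?_
        rw [norm_pow]
        exact pow_le_pow_left₀ (norm_nonneg _) (norm_le_pi_norm u i) _
    _ = ‖u‖ ^ R := by rw [Finset.prod_pow_eq_pow_sum, hR]

theorem generated_contDiff {ι E : Type} [NormedAddCommGroup E] [NormedSpace ℂ E]
    (X : ι → E → E) (hX : ∀ i, ContDiff ℂ ω (X i)) (V : E → E) (hV : Generated X V) :
    ContDiff ℂ ω V := by
  induction hV with
  | base i => exact hX i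
  | bracket F G _ _ hF hG =>
    have h1 : ContDiff ℂ ω (fun y => fderiv ℂ G y (F y)) :=
      (hG.fderiv_right (m := ω) le_top).clm_apply hF
    have h2 : ContDiff ℂ ω (fun y => fderiv ℂ F y (G y)) :=
      (hF.fderiv_right (m := ω) le_top).clm_apply hG
    exact h1.sub h2

theorem iterD_contDiff {E : Type} [NormedAddCommGroup E] [NormedSpace ℂ E]
    (l : List (E → E)) (hl : ∀ V ∈ l, ContDiff ℂ ω V) (g : E → ℂ) (hg : ContDiff ℂ ω g) :
    ContDiff ℂ ω (iterD l g) := by
  induction l with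
  | nil => exact hg
  | cons V l ih =>
    have h1 := ih (fun W hW => hl W (List.mem_cons_of_mem _ hW))
    have h2 := hl V List.mem_cons_self
    have h3 : ContDiff ℂ ω (fun y => fderiv ℂ (iterD l g) y (V y)) :=
      (h1.fderiv_right (m := ω) le_top).clm_apply h2
    exact h3

theorem span_top_of_dual {N : ℕ} (S : Set (Fin N → ℂ))
    (h : ∀ c : Fin N → ℂ, (∀ v ∈ S, ∑ s, c s * v s = 0) → c = 0) :
    Submodule.span ℂ S = ⊤ := by
  classical
  by_contra hne
  obtain ⟨f, hf0, hf⟩ := Submodule.exists_le_ker_of_lt_top (Submodule.span ℂ S) (lt_top_iff_ne_top.mpr hne)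
  have hfv : ∀ v : Fin N → ℂ, f v = ∑ s, f (Pi.single s 1) * v s := by
    intro v
    have hv : v = ∑ s, v s • (Pi.single s 1 : Fin N → ℂ) := by
      funext t
      rw [Finset.sum_apply, Finset.sum_eq_single t]
      · simp
      · intro b _ hb
        rw [Pi.smul_apply, Pi.single_eq_of_ne (Ne.symm hb), smul_zero]
      · intro h; exact absurd (Finset.mem_univ _) h
    conv_lhs => rw [hv]
    rw [map_sum]
    apply Finset.sum_congr rfl
    intro s _
    rw [map_smul, smul_eq_mul, mul_comm]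
  have hc := h (fun s => f (Pi.single s 1)) (by
    intro v hv
    rw [← hfv v]
    exact hf (Submodule.subset_span hv))
  apply hf0
  apply LinearMap.ext
  intro v
  rw [hfv v]
  simp only [LinearMap.zero_apply]
  apply Finset.sum_eq_zero
  intro s _
  have := congrFun hc s
  simp only [Pi.zero_apply] at this
  rw [this, zero_mul]

/-- the directional derivative of a polynomial -/
noncomputable def dirD {N : ℕ} (v : Fin N → ℂ) (P : MvPolynomial (Fin N) ℂ) :
    MvPolynomial (Fin N) ℂ := ∑ t, C (v t) * pderiv t P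

theorem dirD_exists_hom {N : ℕ} (v : Fin N → ℂ) (R : ℕ) (P : MvPolynomial (Fin N) ℂ)
    (hP : P.IsHomogeneous (R + 1)) : (dirD v P).IsHomogeneous R := by
  unfold dirD
  apply IsHomogeneous.sum
  intro t _
  exact (hP.pderiv).C_mul _

/-- if the vectors in `S` span, a nonzero form of degree `R` has a nonzero constant iterated
directional derivative along vectors of `S` -/
theorem dirD_exists {N : ℕ} (S : Set (Fin N → ℂ)) (hS : Submodule.span ℂ S = ⊤) (R : ℕ) :
    ∀ P : MvPolynomial (Fin N) ℂ, P.IsHomogeneous R → P ≠ 0 →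
      ∃ L : List (Fin N → ℂ), L.length = R ∧ (∀ v ∈ L, v ∈ S) ∧
        ∃ c : ℂ, c ≠ 0 ∧ L.foldr dirD P = C c := by
  classical
  induction R with
  | zero =>
    intro P hP hP0
    have h1 : P = C (P.coeff 0) := by
      rw [← totalDegree_eq_zero_iff_eq_C]
      exact hP.totalDegree hP0
    refine ⟨[], rfl, by simp, P.coeff 0, ?_, ?_⟩
    · intro h
      rw [h, C_0] at h1
      exact hP0 h1
    · exact h1
  | succ R ih =>
    intro P hP hP0
    have hex : ∃ v ∈ S, dirD v P ≠ 0 := by
      by_contra hcon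
      push Not at hcon
      have hall : ∀ v : Fin N → ℂ, dirD v P = 0 := by
        intro v
        have hv : v ∈ Submodule.span ℂ S := by rw [hS]; trivial
        induction hv using Submodule.span_induction with
        | mem x hx => exact hcon x hx
        | zero => simp [dirD]
        | add x y _ _ hx hy =>
          unfold dirD at hx hy ⊢
          have : ∑ t, C ((x + y) t) * pderiv t P = ∑ t, C (x t) * pderiv t P +
              ∑ t, C (y t) * pderiv t P := by
            rw [← Finset.sum_add_distrib]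
            refine Finset.sum_congr rfl fun t _ => ?_
            rw [Pi.add_apply, C_add, add_mul]
          rw [this, hx, hy, add_zero]
        | smul a x _ hx =>
          unfold dirD at hx ⊢
          have : ∑ t, C ((a • x) t) * pderiv t P = C a * ∑ t, C (x t) * pderiv t P := by
            rw [Finset.mul_sum]
            refine Finset.sum_congr rfl fun t _ => ?_
            rw [Pi.smul_apply, smul_eq_mul, C_mul, mul_assoc]
          rw [this, hx, mul_zero]
      have hpd : ∀ s, pderiv s P = 0 := by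
        intro s
        have h1 := hall (Pi.single s 1)
        unfold dirD at h1
        rw [Finset.sum_eq_single s] at h1
        · simpa using h1
        · intro b _ hb
          rw [Pi.single_eq_of_ne hb, C_0, zero_mul]
        · intro h
          exact absurd (Finset.mem_univ s) h
      have heu := hP.sum_X_mul_pderiv
      simp only [hpd, mul_zero, Finset.sum_const_zero] at heu
      rw [nsmul_eq_mul] at heu
      rcases mul_eq_zero.1 heu.symm with h | h
      · have h2 : ((R + 1 : ℕ) : MvPolynomial (Fin N) ℂ) ≠ 0 := by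
          exact_mod_cast Nat.succ_ne_zero R
        exact h2 h
      · exact hP0 h
    obtain ⟨v, hv, hvP⟩ := hex
    obtain ⟨L, hL1, hL2, c, hc, hL3⟩ := ih (dirD v P) (dirD_exists_hom v R P hP) hvP
    refine ⟨L ++ [v], by simp [hL1], ?_, c, hc, ?_⟩
    · intro w hw
      rw [List.mem_append, List.mem_singleton] at hw
      rcases hw with hw | hw
      · exact hL2 w hw
      · rw [hw]; exact hv
    · rw [List.foldr_append]
      exact hL3

theorem ker_basis899 {V W ι : Type*} [AddCommGroup V] [Module ℂ V] [AddCommGroup W] [Module ℂ W]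
    [Fintype ι] [Module.Finite ℂ V] [Module.Finite ℂ W] (D : ι → V →ₗ[ℂ] W) :
    ∃ (N' : ℕ) (P : Fin N' → V), LinearIndependent ℂ P ∧ (∀ a i, D i (P a) = 0) ∧
      Module.finrank ℂ V ≤ N' + Fintype.card ι * Module.finrank ℂ W := by
  classical
  let L : V →ₗ[ℂ] (ι → W) := LinearMap.pi D
  let b := Module.finBasis ℂ (LinearMap.ker L)
  refine ⟨Module.finrank ℂ (LinearMap.ker L), fun a => (b a : V), ?_, ?_, ?_⟩
  · exact b.linearIndependent.map' (LinearMap.ker L).subtype (Submodule.ker_subtype _)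
  · intro a i
    have h4 : L (b a : V) = 0 := (b a).2
    exact congrFun h4 i
  · have h8 := LinearMap.finrank_range_add_finrank_ker L
    have h9 : Module.finrank ℂ (LinearMap.range L) ≤ Module.finrank ℂ (ι → W) :=
      Submodule.finrank_le _
    rw [Module.finrank_pi_fintype, Finset.sum_const, Finset.card_univ, smul_eq_mul] at h9
    omega

/-- the constraint maps -/
noncomputable def cmap899 {N : ℕ} (c : Fin N → Fin N → ℂ) :
    MvPolynomial (Fin N) ℂ →ₗ[ℂ] MvPolynomial (Fin N) ℂ :=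
  ∑ s, ∑ t, c s t • ((pderiv s).toLinearMap ∘ₗ (pderiv t).toLinearMap)

theorem cmap899_apply {N : ℕ} (c : Fin N → Fin N → ℂ) (P : MvPolynomial (Fin N) ℂ) :
    cmap899 c P = ∑ s, ∑ t, c s t • pderiv s (pderiv t P) := by
  simp [cmap899, LinearMap.sum_apply]

theorem cmap899_mem {N : ℕ} (c : Fin N → Fin N → ℂ) (R : ℕ) (P : MvPolynomial (Fin N) ℂ)
    (hP : P ∈ homogeneousSubmodule (Fin N) ℂ R) :
    cmap899 c P ∈ homogeneousSubmodule (Fin N) ℂ (R - 2) := by
  rw [cmap899_apply]
  refine Submodule.sum_mem _ fun s _ => Submodule.sum_mem _ fun t _ => Submodule.smul_mem _ _ ?_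
  rw [mem_homogeneousSubmodule] at hP ⊢
  have h1 := (hP.pderiv (i := t)).pderiv (i := s)
  have h2 : R - 1 - 1 = R - 2 := by omega
  rwa [h2] at h1

theorem comb899 {N q : ℕ} (c : Fin N → Fin N → Fin q → ℂ) (G : Fin q → ℂ)
    (Q : MvPolynomial (Fin N) ℂ)
    (h3 : ∀ e : Fin q, ∑ s, ∑ t, c s t e • pderiv s (pderiv t Q) = 0) (F : Fin N → Fin N → ℂ)
    (h6 : ∀ s t, F s t = ∑ e, c s t e * G e) :
    ∑ s, ∑ t, C (F s t) * pderiv s (pderiv t Q) = 0 := by
  have h1 : ∀ s t, C (F s t) * pderiv s (pderiv t Q) =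
      ∑ e, G e • (c s t e • pderiv s (pderiv t Q)) := by
    intro s t
    rw [← smul_eq_C_mul, h6, Finset.sum_smul]
    refine Finset.sum_congr rfl fun e _ => ?_
    rw [smul_smul, mul_comm]
  calc ∑ s, ∑ t, C (F s t) * pderiv s (pderiv t Q)
      = ∑ s, ∑ t, ∑ e, G e • (c s t e • pderiv s (pderiv t Q)) :=
        Finset.sum_congr rfl fun s _ => Finset.sum_congr rfl fun t _ => h1 s t
    _ = ∑ s, ∑ e, ∑ t, G e • (c s t e • pderiv s (pderiv t Q)) :=
        Finset.sum_congr rfl fun s _ => Finset.sum_comm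
    _ = ∑ e, ∑ s, ∑ t, G e • (c s t e • pderiv s (pderiv t Q)) := Finset.sum_comm
    _ = ∑ e, G e • ∑ s, ∑ t, c s t e • pderiv s (pderiv t Q) := by
        simp only [Finset.smul_sum]
    _ = 0 := by simp only [h3, smul_zero, Finset.sum_const_zero]

/-- all forms satisfying the quadratic constraints: there are many -/
theorem exists_forms {E : Type} {ρ N q R : ℕ} (hR : 2 ≤ R)
    (f : Fin N → Fin ρ → E → ℂ) (g : Fin q → E → ℂ)
    (hg : ∀ s t i j, (fun y => f s i y * f t j y) ∈ Submodule.span ℂ (Set.range g))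
    (hfin : ∀ D, FiniteDimensional ℂ (homogeneousSubmodule (Fin N) ℂ D)) :
    ∃ (N' : ℕ) (P : Fin N' → MvPolynomial (Fin N) ℂ), LinearIndependent ℂ P ∧
      (∀ a, (P a).IsHomogeneous R) ∧
      (∀ a i j y, ∑ s, ∑ t, C (f s i y * f t j y) * pderiv s (pderiv t (P a)) = 0) ∧
      Module.finrank ℂ (homogeneousSubmodule (Fin N) ℂ R) ≤
        N' + ρ ^ 2 * q * Module.finrank ℂ (homogeneousSubmodule (Fin N) ℂ (R - 2)) := by
  classical
  have h1 : ∀ s t i j, ∃ c : Fin q → ℂ, ∑ a, c a • g a = fun y => f s i y * f t j y :=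
    fun s t i j => (Submodule.mem_span_range_iff_exists_fun ℂ).1 (hg s t i j)
  choose c hc using h1
  have i1 : Module.Finite ℂ (homogeneousSubmodule (Fin N) ℂ R) := hfin _
  have i2 : Module.Finite ℂ (homogeneousSubmodule (Fin N) ℂ (R - 2)) := hfin _
  obtain ⟨N', P, hP1, hP2, hP3⟩ := ker_basis899 (V := homogeneousSubmodule (Fin N) ℂ R)
    (W := homogeneousSubmodule (Fin N) ℂ (R - 2)) (ι := Fin ρ × Fin ρ × Fin q)
    (fun w => (cmap899 (fun s t => c s t w.1 w.2.1 w.2.2)).restrict
      (cmap899_mem (fun s t => c s t w.1 w.2.1 w.2.2) R))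
  refine ⟨N', fun a => (P a : MvPolynomial (Fin N) ℂ), ?_, ?_, ?_, ?_⟩
  · exact hP1.map' (homogeneousSubmodule (Fin N) ℂ R).subtype (Submodule.ker_subtype _)
  · intro a
    exact (mem_homogeneousSubmodule _ _).1 (P a).2
  · intro a i j y
    refine comb899 (fun s t e => c s t i j e) (fun e => g e y) _ ?_ (fun s t => f s i y * f t j y) ?_
    · intro e
      rw [← cmap899_apply (fun s t => c s t i j e)]
      exact congrArg Subtype.val (hP2 a (i, j, e))
    · intro s t
      have h7 := congrFun (hc s t i j) y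
      simp only [Finset.sum_apply, Pi.smul_apply, smul_eq_mul] at h7
      exact h7.symm
  · rw [Fintype.card_prod, Fintype.card_prod, Fintype.card_fin, Fintype.card_fin] at hP3
    have h10 : ρ * (ρ * q) = ρ ^ 2 * q := by ring
    rwa [h10] at hP3

/-- the monomial basis of the space of forms -/
noncomputable def basis_homog (N D : ℕ) :
    Module.Basis {d : Fin N →₀ ℕ | d.degree = D} ℂ (homogeneousSubmodule (Fin N) ℂ D) :=
  (basisRestrictSupport ℂ {d : Fin N →₀ ℕ | d.degree = D}).map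
    (LinearEquiv.ofEq _ _ (homogeneousSubmodule_eq_finsupp_supported (R := ℂ) (Fin N) D).symm)

/-- multi-indices of degree `D` -/
noncomputable def equiv_homog (N D : ℕ) : Sym (Fin N) D ≃ {d : Fin N →₀ ℕ | d.degree = D} :=
  (Sym.equivNatSum (Fin N) D).trans (Equiv.subtypeEquivRight fun _ => Iff.rfl)

theorem finrank_homog (N D : ℕ) :
    Module.finrank ℂ (homogeneousSubmodule (Fin N) ℂ D) = Nat.multichoose N D := by
  rw [Module.finrank_eq_nat_card_basis (basis_homog N D), ← Nat.card_congr (equiv_homog N D),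
    Nat.card_eq_fintype_card, Sym.card_sym_eq_multichoose, Fintype.card_fin]

theorem finDim_homog (N D : ℕ) : FiniteDimensional ℂ (homogeneousSubmodule (Fin N) ℂ D) := by
  have : Finite {d : Fin N →₀ ℕ | d.degree = D} := Finite.of_equiv _ (equiv_homog N D)
  exact Module.Finite.of_basis (basis_homog N D)

/-- the linear map whose range contains the products -/
noncomputable def npT {E : Type} {ρ N q : ℕ} (R : ℕ)
    (f : Fin N → Fin ρ → E → ℂ) (g : Fin q → E → ℂ) :
    ((homogeneousSubmodule (Fin N) ℂ (2 * R)) ×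
      (Fin ρ → Fin N → homogeneousSubmodule (Fin N) ℂ (2 * R - 1)) ×
      (Fin q → homogeneousSubmodule (Fin N) ℂ (2 * R - 2))) →ₗ[ℂ] (E × (Fin N → ℂ) → ℂ) where
  toFun Q := fun z => eval z.2 (Q.1 : MvPolynomial (Fin N) ℂ) +
    (∑ i, ∑ s, f s i z.1 * eval z.2 (Q.2.1 i s : MvPolynomial (Fin N) ℂ)) +
    ∑ a, g a z.1 * eval z.2 (Q.2.2 a : MvPolynomial (Fin N) ℂ)
  map_add' Q Q' := by
    funext z
    simp only [Prod.fst_add, Prod.snd_add, Pi.add_apply, Submodule.coe_add, map_add, mul_add,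
      Finset.sum_add_distrib]
    ring
  map_smul' c Q := by
    funext z
    simp only [Prod.smul_fst, Prod.smul_snd, Pi.smul_apply, Submodule.coe_smul, smul_eval,
      RingHom.id_apply, smul_eq_mul, mul_add, Finset.mul_sum, mul_left_comm]

theorem npT_apply {E : Type} {ρ N q : ℕ} (R : ℕ)
    (f : Fin N → Fin ρ → E → ℂ) (g : Fin q → E → ℂ) (Q : (homogeneousSubmodule (Fin N) ℂ (2 * R)) ×
      (Fin ρ → Fin N → homogeneousSubmodule (Fin N) ℂ (2 * R - 1)) ×
      (Fin q → homogeneousSubmodule (Fin N) ℂ (2 * R - 2))) (z : E × (Fin N → ℂ)) :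
    npT R f g Q z = eval z.2 (Q.1 : MvPolynomial (Fin N) ℂ) +
    (∑ i, ∑ s, f s i z.1 * eval z.2 (Q.2.1 i s : MvPolynomial (Fin N) ℂ)) +
    ∑ a, g a z.1 * eval z.2 (Q.2.2 a : MvPolynomial (Fin N) ℂ) := rfl

theorem np_m0 {E : Type} {ρ N q : ℕ} (R : ℕ)
    (f : Fin N → Fin ρ → E → ℂ) (g : Fin q → E → ℂ) (Q : MvPolynomial (Fin N) ℂ)
    (hQ : Q.IsHomogeneous (2 * R)) :
    (fun z : E × (Fin N → ℂ) => eval z.2 Q) ∈ LinearMap.range (npT R f g) := by
  refine ⟨(⟨Q, hQ⟩, 0, 0), ?_⟩
  funext z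
  rw [npT_apply]
  simp

theorem np_m1 {E : Type} {ρ N q : ℕ} (R : ℕ)
    (f : Fin N → Fin ρ → E → ℂ) (g : Fin q → E → ℂ) (Q : MvPolynomial (Fin N) ℂ)
    (hQ : Q.IsHomogeneous (2 * R - 1)) (i : Fin ρ) (s : Fin N) :
    (fun z : E × (Fin N → ℂ) => f s i z.1 * eval z.2 Q) ∈ LinearMap.range (npT R f g) := by
  refine ⟨(0, fun i' s' => if i' = i ∧ s' = s then ⟨Q, hQ⟩ else 0, 0), ?_⟩
  funext z
  rw [npT_apply]
  simp only [ZeroMemClass.coe_zero, map_zero, Pi.zero_apply, mul_zero, Finset.sum_const_zero,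
    add_zero, zero_add]
  rw [Finset.sum_eq_single i, Finset.sum_eq_single s]
  · rw [if_pos ⟨rfl, rfl⟩]
  · intro s' _ hs
    rw [if_neg (fun h => hs h.2)]
    simp
  · intro h
    exact absurd (Finset.mem_univ _) h
  · intro i' _ hi
    refine Finset.sum_eq_zero (fun s' _ => ?_)
    rw [if_neg (fun h => hi h.1)]
    simp
  · intro h
    exact absurd (Finset.mem_univ _) h

theorem np_m2 {E : Type} {ρ N q : ℕ} (R : ℕ)
    (f : Fin N → Fin ρ → E → ℂ) (g : Fin q → E → ℂ) (Q : MvPolynomial (Fin N) ℂ)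
    (hQ : Q.IsHomogeneous (2 * R - 2)) (a : Fin q) :
    (fun z : E × (Fin N → ℂ) => g a z.1 * eval z.2 Q) ∈ LinearMap.range (npT R f g) := by
  refine ⟨(0, 0, fun a' => if a' = a then ⟨Q, hQ⟩ else 0), ?_⟩
  funext z
  rw [npT_apply]
  simp only [ZeroMemClass.coe_zero, map_zero, Pi.zero_apply, mul_zero, Finset.sum_const_zero,
    add_zero, zero_add]
  rw [Finset.sum_eq_single a]
  · rw [if_pos rfl]
  · intro a' _ ha
    rw [if_neg ha]
    simp
  · intro h
    exact absurd (Finset.mem_univ _) h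

theorem np_m3 {E : Type} {ρ N q : ℕ} (R : ℕ)
    (f : Fin N → Fin ρ → E → ℂ) (g : Fin q → E → ℂ) (Q : MvPolynomial (Fin N) ℂ)
    (hQ : Q.IsHomogeneous (2 * R - 2)) (h : E → ℂ) (hh : h ∈ Submodule.span ℂ (Set.range g)) :
    (fun z : E × (Fin N → ℂ) => h z.1 * eval z.2 Q) ∈ LinearMap.range (npT R f g) := by
  induction hh using Submodule.span_induction with
  | mem x hx =>
    obtain ⟨a, rfl⟩ := hx
    exact np_m2 R f g Q hQ a
  | zero =>
    have : (fun z : E × (Fin N → ℂ) => (0 : E → ℂ) z.1 * eval z.2 Q) = 0 := by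
      funext z
      simp
    rw [this]
    exact Submodule.zero_mem _
  | add x y _ _ hx hy =>
    have : (fun z : E × (Fin N → ℂ) => (x + y) z.1 * eval z.2 Q) =
        (fun z => x z.1 * eval z.2 Q) + (fun z => y z.1 * eval z.2 Q) := by
      funext z
      simp [add_mul]
    rw [this]
    exact Submodule.add_mem _ hx hy
  | smul c x _ hx =>
    have : (fun z : E × (Fin N → ℂ) => (c • x) z.1 * eval z.2 Q) =
        c • (fun z : E × (Fin N → ℂ) => x z.1 * eval z.2 Q) := by
      funext z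
      simp [mul_assoc]
    rw [this]
    exact Submodule.smul_mem _ _ hx

/-- the products of the new solutions lie in a space of controlled dimension -/
theorem new_products0 {E : Type} {ρ N N' q R : ℕ} (hR : 1 ≤ R)
    (f : Fin N → Fin ρ → E → ℂ) (g : Fin q → E → ℂ)
    (hg : ∀ s t i j, (fun y => f s i y * f t j y) ∈ Submodule.span ℂ (Set.range g))
    (P : Fin N' → MvPolynomial (Fin N) ℂ) (hP : ∀ a, (P a).IsHomogeneous R)
    (hfin : ∀ D, FiniteDimensional ℂ (homogeneousSubmodule (Fin N) ℂ D)) :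
    ∃ (q' : ℕ) (g' : Fin q' → E × (Fin N → ℂ) → ℂ),
      (∀ a b i j, (fun z => newf0 f P a i z * newf0 f P b j z) ∈
        Submodule.span ℂ (Set.range g')) ∧
      q' ≤ Module.finrank ℂ (homogeneousSubmodule (Fin N) ℂ (2 * R)) +
        ρ * N * Module.finrank ℂ (homogeneousSubmodule (Fin N) ℂ (2 * R - 1)) +
        q * Module.finrank ℂ (homogeneousSubmodule (Fin N) ℂ (2 * R - 2)) := by
  have hpd : ∀ a s, (pderiv s (P a)).IsHomogeneous (R - 1) := fun a s => (hP a).pderiv
  have key : ∀ a b i j, (fun z => newf0 f P a i z * newf0 f P b j z) ∈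
      LinearMap.range (npT R f g) := by
    intro a b i j
    have hmix : ∀ a b (j : Fin ρ), (fun z : E × (Fin N → ℂ) => eval z.2 (P a) *
        ∑ s, f s j z.1 * eval z.2 (pderiv s (P b))) ∈ LinearMap.range (npT R f g) := by
      intro a b j
      have h1 : (fun z : E × (Fin N → ℂ) => eval z.2 (P a) *
          ∑ s, f s j z.1 * eval z.2 (pderiv s (P b))) =
          ∑ s, fun z : E × (Fin N → ℂ) => f s j z.1 * eval z.2 (P a * pderiv s (P b)) := by
        funext z
        rw [Finset.sum_apply, Finset.mul_sum]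
        refine Finset.sum_congr rfl (fun s _ => ?_)
        rw [map_mul]
        ring
      rw [h1]
      refine Submodule.sum_mem _ (fun s _ => ?_)
      apply np_m1
      have h2 := (hP a).mul (hpd b s)
      have h3 : R + (R - 1) = 2 * R - 1 := by omega
      rwa [h3] at h2
    refine Fin.cases ?_ (fun i => ?_) i
    · refine Fin.cases ?_ (fun j => ?_) j
      · have h1 := np_m0 R f g (P a * P b) (by
          have := (hP a).mul (hP b)
          rwa [← two_mul] at this)
        have h2 : (fun z => newf0 f P a 0 z * newf0 f P b 0 z) =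
            (fun z : E × (Fin N → ℂ) => eval z.2 (P a * P b)) := by
          funext z
          rw [map_mul]
          rfl
        rw [h2]
        exact h1
      · exact hmix a b j
    · refine Fin.cases ?_ (fun j => ?_) j
      · have h1 := hmix b a i
        have h2 : (fun z => newf0 f P a i.succ z * newf0 f P b 0 z) =
            (fun z : E × (Fin N → ℂ) => eval z.2 (P b) *
              ∑ s, f s i z.1 * eval z.2 (pderiv s (P a))) := by
          funext z
          exact mul_comm _ _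
        rw [h2]
        exact h1
      · have h1 : (fun z => newf0 f P a i.succ z * newf0 f P b j.succ z) =
            ∑ s, ∑ t, fun z : E × (Fin N → ℂ) => (fun y => f s i y * f t j y) z.1 *
              eval z.2 (pderiv s (P a) * pderiv t (P b)) := by
          funext z
          have h2 : newf0 f P a i.succ z * newf0 f P b j.succ z =
            (∑ s, f s i z.1 * eval z.2 (pderiv s (P a))) *
              ∑ t, f t j z.1 * eval z.2 (pderiv t (P b)) := rfl
          rw [h2, Finset.sum_apply, Finset.sum_mul]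
          refine Finset.sum_congr rfl (fun s _ => ?_)
          rw [Finset.sum_apply, Finset.mul_sum]
          refine Finset.sum_congr rfl (fun t _ => ?_)
          rw [map_mul]
          ring
        rw [h1]
        refine Submodule.sum_mem _ (fun s _ => Submodule.sum_mem _ (fun t _ => ?_))
        apply np_m3 R f g _ _ (fun y => f s i y * f t j y) (hg s t i j)
        have h2 := (hpd a s).mul (hpd b t)
        have h3 : (R - 1) + (R - 1) = 2 * R - 2 := by omega
        rwa [h3] at h2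
  haveI := hfin (2 * R)
  haveI := hfin (2 * R - 1)
  haveI := hfin (2 * R - 2)
  let b := Module.finBasis ℂ (LinearMap.range (npT (E := E) R f g))
  refine ⟨Module.finrank ℂ (LinearMap.range (npT (E := E) R f g)), fun k => (b k : _), ?_, ?_⟩
  · have hspan : Submodule.span ℂ (Set.range (fun k => ((b k : LinearMap.range (npT (E := E) R f g)) :
        E × (Fin N → ℂ) → ℂ))) = LinearMap.range (npT (E := E) R f g) := by
      have h1 : Set.range (fun k => ((b k : LinearMap.range (npT (E := E) R f g)) :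
        E × (Fin N → ℂ) → ℂ)) =
        (LinearMap.range (npT (E := E) R f g)).subtype '' Set.range b := by
        rw [← Set.range_comp]
        rfl
      rw [h1, ← Submodule.map_span, b.span_eq, Submodule.map_top, Submodule.range_subtype]
    intro a b' i j
    rw [hspan]
    exact key a b' i j
  · refine (LinearMap.finrank_range_le (npT (E := E) R f g)).trans (le_of_eq ?_)
    rw [Module.finrank_prod, Module.finrank_prod, Module.finrank_pi_fintype,
      Module.finrank_pi_fintype]
    simp only [Module.finrank_pi_fintype, Finset.sum_const, Finset.card_univ, Fintype.card_fin,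
      smul_eq_mul]
    ring

theorem num_step_fac (N k : ℕ) : k.factorial * Nat.multichoose N k = N.ascFactorial k := by
  rw [Nat.ascFactorial_eq_factorial_mul_choose', Nat.multichoose_eq]

theorem num_step_rec (N k : ℕ) :
    (k + 1) * Nat.multichoose N (k + 1) = (N + k) * Nat.multichoose N k := by
  have h1 := num_step_fac N (k + 1)
  have h2 := num_step_fac N k
  rw [Nat.ascFactorial_succ, ← h2, Nat.factorial_succ] at h1
  have h3 : k.factorial * ((k + 1) * Nat.multichoose N (k + 1))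
      = k.factorial * ((N + k) * Nat.multichoose N k) := by
    calc k.factorial * ((k + 1) * Nat.multichoose N (k + 1))
        = (k + 1) * k.factorial * Nat.multichoose N (k + 1) := by ring
      _ = (N + k) * (k.factorial * Nat.multichoose N k) := h1
      _ = _ := by ring
  exact Nat.eq_of_mul_eq_mul_left (Nat.factorial_pos k) h3

theorem num_step_ge (N k : ℕ) (hN : 1 ≤ N) : N ≤ Nat.multichoose N (k + 1) := by
  induction k with
  | zero => simp
  | succ k ih =>
    refine ih.trans ?_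
    have h := num_step_rec N (k + 1)
    have h2 : (k + 1 + 1) * Nat.multichoose N (k + 1) ≤ (N + (k + 1)) * Nat.multichoose N (k + 1) :=
      Nat.mul_le_mul_right _ (by omega)
    rw [← h] at h2
    exact Nat.le_of_mul_le_mul_left h2 (by omega)

theorem num_step_sq (N k : ℕ) :
    N ^ 2 * Nat.multichoose N k ≤ (k + 2) ^ 2 * Nat.multichoose N (k + 2) := by
  have h1 := num_step_rec N k
  have h2 := num_step_rec N (k + 1)
  have h3 : (k + 1) * (k + 2) * Nat.multichoose N (k + 2)
      = (N + k) * (N + (k + 1)) * Nat.multichoose N k := by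
    calc (k + 1) * (k + 2) * Nat.multichoose N (k + 2)
        = (k + 1) * ((k + 1 + 1) * Nat.multichoose N (k + 1 + 1)) := by ring_nf
      _ = (N + (k + 1)) * ((k + 1) * Nat.multichoose N (k + 1)) := by rw [h2]; ring
      _ = _ := by rw [h1]; ring
  calc N ^ 2 * Nat.multichoose N k ≤ (N + k) * (N + (k + 1)) * Nat.multichoose N k := by
        apply Nat.mul_le_mul_right
        nlinarith
    _ = (k + 1) * (k + 2) * Nat.multichoose N (k + 2) := h3.symm
    _ ≤ _ := by
        apply Nat.mul_le_mul_right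
        nlinarith

theorem num_step_pow (N K : ℕ) (hN : 2 * K ^ 2 ≤ N) (hN1 : 1 ≤ N) :
    (N + K) ^ K ≤ 2 * N ^ K := by
  have hNr : (0 : ℝ) < N := by exact_mod_cast hN1
  have hKN : (2 : ℝ) * (K : ℝ) ^ 2 ≤ N := by exact_mod_cast hN
  have hKN' : (K : ℝ) / N ≤ 1 := by
    rw [div_le_one hNr]
    have h1 : (K : ℝ) ≤ (K : ℝ) ^ 2 := by
      exact_mod_cast Nat.le_self_pow (by norm_num) K
    nlinarith [sq_nonneg (K : ℝ)]
  have hb : (1 : ℝ) + (K : ℝ) * (-((K : ℝ) / N)) ≤ (1 + -((K : ℝ) / N)) ^ K :=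
    one_add_mul_le_pow (by linarith) K
  have h2 : (1 : ℝ) / 2 ≤ (1 + -((K : ℝ) / N)) ^ K := by
    refine le_trans ?_ hb
    have : (K : ℝ) * ((K : ℝ) / N) ≤ 1 / 2 := by
      rw [← mul_div_assoc, div_le_iff₀ hNr]
      nlinarith
    linarith
  have h3 : ((N : ℝ) + K) ^ K * (1 + -((K : ℝ) / N)) ^ K ≤ (N : ℝ) ^ K := by
    rw [← mul_pow]
    apply pow_le_pow_left₀
    · apply mul_nonneg (by positivity)
      linarith
    · have : ((N : ℝ) + K) * (1 + -((K : ℝ) / N)) = N - (K : ℝ) ^ 2 / N := by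
        field_simp
        ring
      rw [this]
      have : 0 ≤ (K : ℝ) ^ 2 / N := by positivity
      linarith
  have h4 : ((N : ℝ) + K) ^ K * (1 / 2) ≤ (N : ℝ) ^ K :=
    (mul_le_mul_of_nonneg_left h2 (by positivity)).trans h3
  have h5 : ((N : ℝ) + K) ^ K ≤ 2 * (N : ℝ) ^ K := by linarith
  exact_mod_cast h5

theorem num_step_two (R : ℕ) (hR : 4 ≤ R) : R ^ 2 ≤ 2 ^ R := by
  induction R, hR using Nat.le_induction with
  | base => norm_num
  | succ n hn ih =>
    rw [pow_succ 2 n]
    nlinarith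

theorem num_step_cb (ρ m' R : ℕ) (hR : R = 32 * m' * (1 + ρ) + 4) :
    8 * m' * (2 + ρ * (2 * R)) ≤ Nat.centralBinom R := by
  have h1 := Nat.four_pow_le_two_mul_self_mul_centralBinom R (by omega)
  have h2 := num_step_two R (by omega)
  have h3 : 32 * m' * (1 + ρ) ≤ 2 ^ R := by
    have : R < 2 ^ R := Nat.lt_two_pow_self
    omega
  have h4 : 32 * m' * (1 + ρ) * R ^ 2 ≤ 4 ^ R := by
    calc 32 * m' * (1 + ρ) * R ^ 2 ≤ 2 ^ R * 2 ^ R := Nat.mul_le_mul h3 h2
      _ = 4 ^ R := by
        rw [← mul_pow]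
        norm_num
  have h5 : 2 * R * (8 * m' * (2 + ρ * (2 * R))) ≤ 32 * m' * (1 + ρ) * R ^ 2 := by
    have h6 : 2 * R * (8 * m' * (2 + ρ * (2 * R))) = 32 * m' * (R * (1 + ρ * R)) := by ring
    have h7 : 32 * m' * (1 + ρ) * R ^ 2 = 32 * m' * (R * (R + ρ * R)) := by ring
    rw [h6, h7]
    apply Nat.mul_le_mul_left
    apply Nat.mul_le_mul_left
    omega
  have h8 : 2 * R * (8 * m' * (2 + ρ * (2 * R))) ≤ 2 * R * Nat.centralBinom R :=
    (h5.trans h4).trans h1
  exact Nat.le_of_mul_le_mul_left h8 (by omega)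

/-- the numerical lemma for the inductive step -/
theorem num_step (ρ m' : ℕ) : ∃ R m : ℕ, 2 ≤ R ∧ ∀ N q N' : ℕ, m ≤ N → m * q ≤ N ^ 2 →
    Nat.multichoose N R ≤ N' + ρ ^ 2 * q * Nat.multichoose N (R - 2) →
    m' ≤ N' ∧
    m' * (Nat.multichoose N (2 * R) + ρ * N * Nat.multichoose N (2 * R - 1) +
      q * Nat.multichoose N (2 * R - 2)) ≤ N' ^ 2 := by
  obtain ⟨R, hR⟩ : ∃ R, R = 32 * m' * (1 + ρ) + 4 := ⟨_, rfl⟩
  have hcb := num_step_cb ρ m' R hR
  have hR4 : 4 ≤ R := by omega
  refine ⟨R, 2 * ρ ^ 2 * R ^ 2 + 2 * m' + 8 * R ^ 2 + 1, by omega, ?_⟩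
  intro N q N' hN hq hN'
  obtain ⟨r, rfl⟩ : ∃ r, R = r + 2 := ⟨R - 2, by omega⟩
  have hr2 : r + 2 - 2 = r := by omega
  rw [hr2] at hN'
  have hN1 : 1 ≤ N := by omega
  set m : ℕ := 2 * ρ ^ 2 * (r + 2) ^ 2 + 2 * m' + 8 * (r + 2) ^ 2 + 1 with hm
  -- step 1
  have s1 : 2 * (ρ ^ 2 * q * Nat.multichoose N r) ≤ Nat.multichoose N (r + 2) := by
    have h1 := num_step_sq N r
    have h2 : (r + 2) ^ 2 * (2 * (ρ ^ 2 * q * Nat.multichoose N r))
        ≤ (r + 2) ^ 2 * Nat.multichoose N (r + 2) := by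
      refine le_trans ?_ h1
      have h3 : m * q * Nat.multichoose N r ≤ N ^ 2 * Nat.multichoose N r :=
        Nat.mul_le_mul_right _ hq
      refine le_trans ?_ h3
      have h4 : (r + 2) ^ 2 * (2 * (ρ ^ 2 * q * Nat.multichoose N r))
          = (2 * ρ ^ 2 * (r + 2) ^ 2) * q * Nat.multichoose N r := by ring
      rw [h4]
      apply Nat.mul_le_mul_right
      apply Nat.mul_le_mul_right
      omega
    exact Nat.le_of_mul_le_mul_left h2 (by positivity)
  have s2 : Nat.multichoose N (r + 2) ≤ 2 * N' := by omega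
  have s3 : N ≤ Nat.multichoose N (r + 2) := num_step_ge N (r + 1) hN1
  refine ⟨by omega, ?_⟩
  have hK1 : 2 * (r + 2) - 1 = 2 * r + 3 := by omega
  have hK2 : 2 * (r + 2) - 2 = 2 * r + 2 := by omega
  have hK : 2 * (r + 2) = 2 * r + 4 := by ring
  rw [hK1, hK2, hK]
  rw [hK] at hcb
  -- step 3
  have t1 : N * Nat.multichoose N (2 * r + 3) ≤ (2 * r + 4) * Nat.multichoose N (2 * r + 4) := by
    have := num_step_rec N (2 * r + 3)
    have h2 : (2 * r + 4) * Nat.multichoose N (2 * r + 4)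
        = (N + (2 * r + 3)) * Nat.multichoose N (2 * r + 3) := this
    rw [h2]
    apply Nat.mul_le_mul_right
    omega
  have t2 : q * Nat.multichoose N (2 * r + 2) ≤ Nat.multichoose N (2 * r + 4) := by
    have h1 := num_step_sq N (2 * r + 2)
    have h2 : (2 * r + 4) ^ 2 * (q * Nat.multichoose N (2 * r + 2))
        ≤ (2 * r + 4) ^ 2 * Nat.multichoose N (2 * r + 4) := by
      refine le_trans ?_ h1
      have h3 : m * q * Nat.multichoose N (2 * r + 2) ≤ N ^ 2 * Nat.multichoose N (2 * r + 2) :=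
        Nat.mul_le_mul_right _ hq
      refine le_trans ?_ h3
      rw [← mul_assoc]
      apply Nat.mul_le_mul_right
      apply Nat.mul_le_mul_right
      have : (2 * r + 4) ^ 2 = 4 * (r + 2) ^ 2 := by ring
      rw [this]
      omega
    exact Nat.le_of_mul_le_mul_left h2 (by positivity)
  have t3 : Nat.multichoose N (2 * r + 4) + ρ * N * Nat.multichoose N (2 * r + 3) +
      q * Nat.multichoose N (2 * r + 2) ≤ (2 + ρ * (2 * r + 4)) * Nat.multichoose N (2 * r + 4) := by
    have : ρ * N * Nat.multichoose N (2 * r + 3)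
        ≤ ρ * ((2 * r + 4) * Nat.multichoose N (2 * r + 4)) := by
      rw [mul_assoc]
      exact Nat.mul_le_mul_left _ t1
    calc _ ≤ Nat.multichoose N (2 * r + 4) + ρ * ((2 * r + 4) * Nat.multichoose N (2 * r + 4)) +
          Nat.multichoose N (2 * r + 4) := by omega
      _ = _ := by ring
  -- step 4
  have u1 : (2 * r + 4).factorial * Nat.multichoose N (2 * r + 4) ≤ 2 * (N ^ (r + 2)) ^ 2 := by
    rw [num_step_fac]
    have h1 : N.ascFactorial (2 * r + 4) ≤ (N + (2 * r + 4)) ^ (2 * r + 4) :=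
      (Nat.ascFactorial_le _ (Nat.le_succ N)).trans (Nat.ascFactorial_le_pow_add N _)
    have h2 := num_step_pow N (2 * r + 4) (by
      have : 2 * (2 * r + 4) ^ 2 = 8 * (r + 2) ^ 2 := by ring
      rw [this]
      omega) hN1
    refine (h1.trans h2).trans (le_of_eq ?_)
    rw [← pow_mul]
    ring_nf
  have u2 : N ^ (r + 2) ≤ (r + 2).factorial * Nat.multichoose N (r + 2) := by
    rw [num_step_fac]
    exact Nat.pow_succ_le_ascFactorial N _
  have u3 : (2 * r + 4).factorial = Nat.centralBinom (r + 2) * ((r + 2).factorial) ^ 2 := by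
    have h1 : r + 2 ≤ 2 * (r + 2) := by omega
    have := Nat.choose_mul_factorial_mul_factorial h1
    have h2 : 2 * (r + 2) - (r + 2) = r + 2 := by omega
    rw [h2, hK] at this
    rw [← this, Nat.centralBinom_eq_two_mul_choose, hK]
    ring
  have u4 : Nat.centralBinom (r + 2) * Nat.multichoose N (2 * r + 4)
      ≤ 2 * Nat.multichoose N (r + 2) ^ 2 := by
    have h1 : ((r + 2).factorial) ^ 2 * (Nat.centralBinom (r + 2) * Nat.multichoose N (2 * r + 4))
        ≤ ((r + 2).factorial) ^ 2 * (2 * Nat.multichoose N (r + 2) ^ 2) := by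
      calc ((r + 2).factorial) ^ 2 * (Nat.centralBinom (r + 2) * Nat.multichoose N (2 * r + 4))
          = (2 * r + 4).factorial * Nat.multichoose N (2 * r + 4) := by rw [u3]; ring
        _ ≤ 2 * (N ^ (r + 2)) ^ 2 := u1
        _ ≤ 2 * ((r + 2).factorial * Nat.multichoose N (r + 2)) ^ 2 := by
            apply Nat.mul_le_mul_left
            exact Nat.pow_le_pow_left u2 2
        _ = _ := by ring
    exact Nat.le_of_mul_le_mul_left h1 (by positivity)
  have u5 : Nat.multichoose N (r + 2) ^ 2 ≤ 4 * N' ^ 2 := by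
    calc Nat.multichoose N (r + 2) ^ 2 ≤ (2 * N') ^ 2 := Nat.pow_le_pow_left s2 2
      _ = _ := by ring
  have u6 : 8 * m' * (2 + ρ * (2 * r + 4)) * Nat.multichoose N (2 * r + 4)
      ≤ 8 * N' ^ 2 := by
    refine (Nat.mul_le_mul_right _ hcb).trans (u4.trans ?_)
    omega
  have u7 : m' * (Nat.multichoose N (2 * r + 4) + ρ * N * Nat.multichoose N (2 * r + 3) +
      q * Nat.multichoose N (2 * r + 2))
      ≤ m' * ((2 + ρ * (2 * r + 4)) * Nat.multichoose N (2 * r + 4)) :=
    Nat.mul_le_mul_left _ t3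
  have u8 : 8 * (m' * ((2 + ρ * (2 * r + 4)) * Nat.multichoose N (2 * r + 4))) ≤ 8 * N' ^ 2 := by
    refine le_trans (le_of_eq ?_) u6
    ring
  omega

theorem num_final_step (M k : ℕ) :
    Nat.multichoose (M + 1) (k + 1) * (k + 1) = Nat.multichoose (M + 1) k * (M + k + 1) := by
  rw [Nat.multichoose_eq, Nat.multichoose_eq]
  have h1 : M + 1 + (k + 1) - 1 = M + k + 1 := by omega
  have h2 : M + 1 + k - 1 = M + k := by omega
  rw [h1, h2]
  have := Nat.add_one_mul_choose_eq (M + k) k
  rw [← this, Nat.mul_comm]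

/-- the numerical lemma for the final step -/
theorem num_final (ρ r : ℕ) (hr : 2 ≤ r) : ∃ m : ℕ, ∀ N q : ℕ, m ≤ N → m * q ≤ N ^ 2 →
    ρ ^ 2 * q * Nat.multichoose N (r - 2) < Nat.multichoose N r := by
  obtain ⟨t, rfl⟩ : ∃ t, r = t + 2 := ⟨r - 2, by omega⟩
  refine ⟨ρ ^ 2 * (t + 2) ^ 2 + 1, ?_⟩
  intro N q hN hq
  obtain ⟨M, rfl⟩ : ∃ M, N = M + 1 := ⟨N - 1, by omega⟩
  rw [Nat.add_sub_cancel]
  have h1 := num_final_step M t
  have h2 := num_final_step M (t + 1)
  rw [show t + 1 + 1 = t + 2 from rfl] at h2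
  have hpos : 0 < Nat.multichoose (M + 1) t := by
    rw [Nat.multichoose_eq]
    apply Nat.choose_pos
    omega
  generalize Nat.multichoose (M + 1) t = c at *
  generalize Nat.multichoose (M + 1) (t + 1) = d at *
  generalize Nat.multichoose (M + 1) (t + 2) = e at *
  have h3 : e * ((t + 2) * (t + 1)) = c * ((M + t + 1) * (M + (t + 1) + 1)) := by
    calc e * ((t + 2) * (t + 1)) = (e * (t + 2)) * (t + 1) := by ring
      _ = (d * (M + (t + 1) + 1)) * (t + 1) := by rw [h2]
      _ = (d * (t + 1)) * (M + (t + 1) + 1) := by ring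
      _ = (c * (M + t + 1)) * (M + (t + 1) + 1) := by rw [h1]
      _ = _ := by ring
  have h4 : (M + 1) ^ 2 ≤ (M + t + 1) * (M + (t + 1) + 1) := by
    rw [pow_two]
    exact Nat.mul_le_mul (by omega) (by omega)
  have h5 : ρ ^ 2 * q * ((t + 2) * (t + 1)) < (M + 1) ^ 2 := by
    rcases Nat.eq_zero_or_pos q with hq0 | hq0
    · subst hq0
      simp
    · refine lt_of_lt_of_le ?_ hq
      have h6 : (t + 2) * (t + 1) ≤ (t + 2) ^ 2 := by
        rw [pow_two]; exact Nat.mul_le_mul le_rfl (by omega)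
      calc ρ ^ 2 * q * ((t + 2) * (t + 1)) ≤ ρ ^ 2 * q * (t + 2) ^ 2 := Nat.mul_le_mul le_rfl h6
        _ < ρ ^ 2 * q * (t + 2) ^ 2 + q := by omega
        _ = (ρ ^ 2 * (t + 2) ^ 2 + 1) * q := by ring
  have h7 : ρ ^ 2 * q * c * ((t + 2) * (t + 1)) < e * ((t + 2) * (t + 1)) := by
    rw [h3]
    calc ρ ^ 2 * q * c * ((t + 2) * (t + 1)) = c * (ρ ^ 2 * q * ((t + 2) * (t + 1))) := by ring
      _ < c * (M + 1) ^ 2 := Nat.mul_lt_mul_of_pos_left h5 hpos
      _ ≤ _ := Nat.mul_le_mul le_rfl h4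
  exact Nat.lt_of_mul_lt_mul_right h7

theorem fderiv_lift899 {E : Type} [NormedAddCommGroup E] [NormedSpace ℂ E] {N : ℕ}
    (G : E → E) (hG : Differentiable ℂ G) (z v : newE E N) :
    fderiv ℂ (fun z => ((G z.1, 0) : newE E N)) z v = (fderiv ℂ G z.1 v.1, 0) := by
  have h1 : HasFDerivAt (fun z : newE E N => G z.1)
      ((fderiv ℂ G z.1).comp (ContinuousLinearMap.fst ℂ E ((Fin N → ℂ) × ℂ))) z :=
    (hG z.1).hasFDerivAt.comp z hasFDerivAt_fst
  have h2 := h1.prodMk (hasFDerivAt_const (𝕜 := ℂ) (0 : (Fin N → ℂ) × ℂ) z)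
  rw [h2.fderiv]
  rfl

theorem fderiv_vert899 {E : Type} [NormedAddCommGroup E] [NormedSpace ℂ E] {N : ℕ}
    (h : Fin N → E → ℂ) (hh : ∀ s, Differentiable ℂ (h s)) (c : ℂ) (z v : newE E N) :
    fderiv ℂ (fun z => ((0, (fun s => h s z.1, c)) : newE E N)) z v =
      (0, (fun s => fderiv ℂ (h s) z.1 v.1, 0)) := by
  have h1 : HasFDerivAt (fun (z : newE E N) s => h s z.1)
      (ContinuousLinearMap.pi fun s => (fderiv ℂ (h s) z.1).comp
        (ContinuousLinearMap.fst ℂ E ((Fin N → ℂ) × ℂ))) z :=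
    hasFDerivAt_pi.2 fun s => (hh s z.1).hasFDerivAt.comp z hasFDerivAt_fst
  have h2 := (hasFDerivAt_const (𝕜 := ℂ) (0 : E) z).prodMk
    (h1.prodMk (hasFDerivAt_const (𝕜 := ℂ) c z))
  rw [h2.fderiv]
  rfl

/-- lifts of generated fields are generated -/
theorem lift_generated {E : Type} [NormedAddCommGroup E] [NormedSpace ℂ E] {ρ N : ℕ}
    (X : Fin ρ → E → E) (p : Fin N → E → ℂ)
    (hX : ∀ V : E → E, Generated X V → ContDiff ℂ ω V)
    (V : E → E) (hV : Generated X V) :
    Generated (newX X p) (fun z => ((V z.1, 0) : newE E N)) := by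
  induction hV with
  | base i => exact Generated.base (X := newX X p) (Fin.succ i)
  | bracket F G hF hG ihF ihG =>
    have h1 : (fun z => ((VectorField.lieBracket ℂ F G z.1, 0) : newE E N)) =
        VectorField.lieBracket ℂ (fun z => ((F z.1, 0) : newE E N))
          (fun z => ((G z.1, 0) : newE E N)) := by
      funext z
      rw [VectorField.lieBracket, VectorField.lieBracket,
        fderiv_lift899 G ((hX G hG).differentiable (by simp)),
        fderiv_lift899 F ((hX F hF).differentiable (by simp)), Prod.mk_sub_mk, sub_zero]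
    rw [h1]
    exact Generated.bracket _ _ ihF ihG

theorem step899 {E : Type} [NormedAddCommGroup E] [NormedSpace ℂ E] {ρ N : ℕ}
    (X : Fin ρ → E → E) (p : Fin N → E → ℂ)
    (hX : ∀ V : E → E, Generated X V → ContDiff ℂ ω V)
    (V : E → E) (hV : Generated X V) (h : Fin N → E → ℂ) (hh : ∀ s, Differentiable ℂ (h s)) (c : ℂ)
    (hW : Generated (newX X p) (fun z => ((0, (fun s => h s z.1, c)) : newE E N))) :
    Generated (newX X p)
      (fun z => ((0, (fun s => fderiv ℂ (h s) z.1 (V z.1), 0)) : newE E N)) := by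
  have h1 : (fun z => ((0, (fun s => fderiv ℂ (h s) z.1 (V z.1), 0)) : newE E N)) =
      VectorField.lieBracket ℂ (fun z => ((V z.1, 0) : newE E N))
        (fun z => ((0, (fun s => h s z.1, c)) : newE E N)) := by
    funext z
    rw [VectorField.lieBracket, fderiv_vert899 h hh,
      fderiv_lift899 V ((hX V hV).differentiable (by simp)), map_zero]
    exact (sub_zero _).symm
  rw [h1]
  exact Generated.bracket _ _ (lift_generated X p hX V hV) hW

/-- the vertical fields given by iterated derivatives are generated -/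
theorem vert_generated {E : Type} [NormedAddCommGroup E] [NormedSpace ℂ E] {ρ N : ℕ}
    (X : Fin ρ → E → E) (p : Fin N → E → ℂ)
    (hX : ∀ V : E → E, Generated X V → ContDiff ℂ ω V)
    (hD : ∀ l : List (E → E), (∀ V ∈ l, Generated X V) → ∀ s, ContDiff ℂ ω (iterD l (p s)))
    (l : List (E → E)) (hne : l ≠ []) (hl : ∀ V ∈ l, Generated X V) :
    Generated (newX X p) (fun z => ((0, (fun s => iterD l (p s) z.1, 0)) : newE E N)) := by
  induction l with
  | nil => exact absurd rfl hne
  | cons V l ih =>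
    have hl' : ∀ W ∈ l, Generated X W := fun W hW => hl W (List.mem_cons_of_mem _ hW)
    have hh : ∀ s, Differentiable ℂ (iterD l (p s)) := fun s =>
      (hD l hl' s).differentiable (by simp)
    rcases eq_or_ne l [] with rfl | hne'
    · exact step899 X p hX V (hl V (List.mem_cons_self)) (fun s => iterD [] (p s)) hh 1
        (Generated.base (X := newX X p) 0)
    · exact step899 X p hX V (hl V (List.mem_cons_self)) (fun s => iterD l (p s)) hh 0
        (ih hne' hl')

theorem new_rel_aux0 {N : ℕ} (s t : Fin N) (P : MvPolynomial (Fin N) ℂ) :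
    pderiv s (pderiv t P) = pderiv t (pderiv s P) := by
  classical
  have h : ⁅(pderiv s : Derivation ℂ (MvPolynomial (Fin N) ℂ) (MvPolynomial (Fin N) ℂ)),
      (pderiv t : Derivation ℂ (MvPolynomial (Fin N) ℂ) (MvPolynomial (Fin N) ℂ))⁆ = 0 := by
    apply MvPolynomial.derivation_ext
    intro i
    rw [Derivation.commutator_apply, pderiv_X, pderiv_X]
    by_cases h1 : t = i
    · by_cases h2 : s = i
      · subst h1; subst h2; simp
      · subst h1; simp [Pi.single_apply]
        split_ifs <;> simp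
    · by_cases h2 : s = i
      · subst h2; simp [Pi.single_apply]
        split_ifs <;> simp
      · simp [Pi.single_apply]
        split_ifs <;> simp
  have h3 := congrArg (fun D => D P) h
  simp only [Derivation.commutator_apply, Derivation.zero_apply] at h3
  exact sub_eq_zero.1 h3

theorem new_rel_aux1 {E : Type} [NormedAddCommGroup E] [NormedSpace ℂ E] {N : ℕ}
    (Q : MvPolynomial (Fin N) ℂ) (z : newE E N) :
    HasFDerivAt (fun z : newE E N => eval z.2.1 Q)
      ((∑ s, eval z.2.1 (pderiv s Q) •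
        (ContinuousLinearMap.proj (R := ℂ) (φ := fun _ : Fin N => ℂ) s)).comp
        ((ContinuousLinearMap.fst ℂ (Fin N → ℂ) ℂ).comp
          (ContinuousLinearMap.snd ℂ E ((Fin N → ℂ) × ℂ)))) z := by
  have h1 : HasFDerivAt (fun z : newE E N => z.2.1)
      ((ContinuousLinearMap.fst ℂ (Fin N → ℂ) ℂ).comp
        (ContinuousLinearMap.snd ℂ E ((Fin N → ℂ) × ℂ))) z :=
    ((ContinuousLinearMap.fst ℂ (Fin N → ℂ) ℂ).comp
        (ContinuousLinearMap.snd ℂ E ((Fin N → ℂ) × ℂ))).hasFDerivAt
  exact (eval_hasFDerivAt Q z.2.1).comp z h1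

theorem new_rel_aux2 {E : Type} [NormedAddCommGroup E] [NormedSpace ℂ E] {N : ℕ}
    (Q : MvPolynomial (Fin N) ℂ) (z w : newE E N) :
    fderiv ℂ (fun z : newE E N => eval z.2.1 Q) z w =
      ∑ s, eval z.2.1 (pderiv s Q) * w.2.1 s := by
  rw [(new_rel_aux1 Q z).fderiv]
  simp [ContinuousLinearMap.sum_apply]

theorem new_rel_aux3 {E : Type} [NormedAddCommGroup E] [NormedSpace ℂ E] {N : ℕ}
    (g : Fin N → E → ℂ) (hg : ∀ s, Differentiable ℂ (g s))
    (Q : Fin N → MvPolynomial (Fin N) ℂ) (z w : newE E N) :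
    fderiv ℂ (fun z : newE E N => ∑ s, g s z.1 * eval z.2.1 (Q s)) z w =
      ∑ s, (fderiv ℂ (g s) z.1 w.1 * eval z.2.1 (Q s)
        + g s z.1 * ∑ t, eval z.2.1 (pderiv t (Q s)) * w.2.1 t) := by
  have h2 : ∀ s, HasFDerivAt (fun z : newE E N => g s z.1)
      ((fderiv ℂ (g s) z.1).comp (ContinuousLinearMap.fst ℂ E ((Fin N → ℂ) × ℂ))) z := by
    intro s
    have h1 : HasFDerivAt (fun z : newE E N => z.1)
        (ContinuousLinearMap.fst ℂ E ((Fin N → ℂ) × ℂ)) z :=
      (ContinuousLinearMap.fst ℂ E ((Fin N → ℂ) × ℂ)).hasFDerivAt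
    exact (hg s z.1).hasFDerivAt.comp z h1
  have h3 : ∀ s, HasFDerivAt (fun z : newE E N => g s z.1 * eval z.2.1 (Q s)) _ z :=
    fun s => (h2 s).mul (new_rel_aux1 (Q s) z)
  have h4 := HasFDerivAt.fun_sum (u := Finset.univ) (fun s _ => h3 s)
  rw [h4.fderiv]
  simp only [ContinuousLinearMap.sum_apply, ContinuousLinearMap.add_apply,
    ContinuousLinearMap.smul_apply, ContinuousLinearMap.comp_apply,
    ContinuousLinearMap.coe_fst', ContinuousLinearMap.coe_snd', ContinuousLinearMap.proj_apply,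
    smul_eq_mul]
  refine Finset.sum_congr rfl fun s _ => ?_
  ring

theorem new_rel_aux4 {E : Type} [NormedAddCommGroup E] [NormedSpace ℂ E] {ρ N N' : ℕ}
    (X : Fin ρ → E → E) (f : Fin N → Fin ρ → E → ℂ) (p : Fin N → E → ℂ)
    (h : Sys X f p) (P : Fin N' → MvPolynomial (Fin N) ℂ)
    (hc : ∀ a i j y, ∑ s, ∑ t, C (f s i y * f t j y) * pderiv s (pderiv t (P a)) = 0)
    (a : Fin N') (i : Fin ρ) (y : E) (u : Fin N → ℂ) :
    ∑ s, f s i y * ∑ t, eval u (pderiv t (pderiv s (P a))) * p t y = 0 := by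
  have hd : ∀ s, Differentiable ℂ (f s i) := fun s => (h.hf s i).differentiable (by simp)
  have h0 : (fun y => ∑ s, ∑ t, (f s i y * f t i y) * eval u (pderiv s (pderiv t (P a)))) =
      fun _ => 0 := by
    funext y
    have := congrArg (eval u) (hc a i i y)
    simpa [map_sum] using this
  have h1 : HasFDerivAt
      (fun y => ∑ s, ∑ t, (f s i y * f t i y) * eval u (pderiv s (pderiv t (P a)))) _ y :=
    HasFDerivAt.fun_sum (u := Finset.univ) (fun s _ => HasFDerivAt.fun_sum (u := Finset.univ)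
      (fun t _ => ((hd s y).hasFDerivAt.mul (hd t y).hasFDerivAt).mul_const
        (eval u (pderiv s (pderiv t (P a))))))
  have h2 := h1.fderiv
  rw [h0] at h2
  have h3 := congrArg (fun L => L (X i y)) h2
  simp only [fderiv_fun_const, Pi.zero_apply, ContinuousLinearMap.zero_apply,
    ContinuousLinearMap.sum_apply, ContinuousLinearMap.add_apply,
    ContinuousLinearMap.smul_apply, smul_eq_mul, h.rel, if_true] at h3
  have h4 : ∑ s, ∑ t, eval u (pderiv s (pderiv t (P a))) * (f s i y * p t y + f t i y * p s y) =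
      2 * ∑ s, f s i y * ∑ t, eval u (pderiv t (pderiv s (P a))) * p t y := by
    have h5 : ∑ s, ∑ t, eval u (pderiv s (pderiv t (P a))) * (f t i y * p s y) =
        ∑ s, f s i y * ∑ t, eval u (pderiv t (pderiv s (P a))) * p t y := by
      rw [Finset.sum_comm]
      refine Finset.sum_congr rfl fun s _ => ?_
      rw [Finset.mul_sum]
      refine Finset.sum_congr rfl fun t _ => ?_
      ring
    have h6 : ∑ s, ∑ t, eval u (pderiv s (pderiv t (P a))) * (f s i y * p t y) =
        ∑ s, f s i y * ∑ t, eval u (pderiv t (pderiv s (P a))) * p t y := by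
      refine Finset.sum_congr rfl fun s _ => ?_
      rw [Finset.mul_sum]
      refine Finset.sum_congr rfl fun t _ => ?_
      rw [show pderiv s (pderiv t (P a)) = pderiv t (pderiv s (P a)) from
        new_rel_aux0 _ _ _]
      ring
    rw [two_mul]
    nth_rewrite 1 [← h6]
    rw [← h5, ← Finset.sum_add_distrib]
    refine Finset.sum_congr rfl fun s _ => ?_
    rw [← Finset.sum_add_distrib]
    refine Finset.sum_congr rfl fun t _ => ?_
    ring
  have h7 := h3.symm.trans rfl
  rw [h4] at h7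
  simpa using h7

/-- the relations for the new system -/
theorem new_rel {E : Type} [NormedAddCommGroup E] [NormedSpace ℂ E] {ρ N N' : ℕ}
    (X : Fin ρ → E → E) (f : Fin N → Fin ρ → E → ℂ) (p : Fin N → E → ℂ)
    (h : Sys X f p) (P : Fin N' → MvPolynomial (Fin N) ℂ)
    (hc : ∀ a i j y, ∑ s, ∑ t, C (f s i y * f t j y) * pderiv s (pderiv t (P a)) = 0)
    (a : Fin N') (i j : Fin (ρ + 1)) (z : newE E N) :
    fderiv ℂ (newf f P a i) z (newX X p j z) = if i = j then newp p P a z else 0 := by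
  have hd : ∀ s i, Differentiable ℂ (f s i) := fun s i => (h.hf s i).differentiable (by simp)
  refine Fin.cases ?_ (fun i => ?_) i
  · refine Fin.cases ?_ (fun j => ?_) j
    · show fderiv ℂ (fun z : newE E N => eval z.2.1 (P a)) z _ = _
      rw [new_rel_aux2, if_pos rfl]
      unfold newp
      refine Finset.sum_congr rfl fun s _ => ?_
      show _ * p s z.1 = _
      ring
    · show fderiv ℂ (fun z : newE E N => eval z.2.1 (P a)) z _ = _
      rw [new_rel_aux2, if_neg (Fin.succ_ne_zero j).symm]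
      refine Finset.sum_eq_zero fun s _ => ?_
      show _ * (0 : ℂ) = _
      ring
  · refine Fin.cases ?_ (fun j => ?_) j
    · show fderiv ℂ (fun z : newE E N => ∑ s, f s i z.1 * eval z.2.1 (pderiv s (P a))) z _ = _
      rw [new_rel_aux3 (fun s => f s i) (fun s => hd s i), if_neg (Fin.succ_ne_zero i)]
      rw [← new_rel_aux4 X f p h P hc a i z.1 z.2.1]
      refine Finset.sum_congr rfl fun s _ => ?_
      show fderiv ℂ (f s i) z.1 (0 : E) * _ + f s i z.1 * ∑ t, _ * p t z.1 = _
      rw [map_zero]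
      ring
    · show fderiv ℂ (fun z : newE E N => ∑ s, f s i z.1 * eval z.2.1 (pderiv s (P a))) z _ = _
      rw [new_rel_aux3 (fun s => f s i) (fun s => hd s i)]
      have h1 : ∀ s, fderiv ℂ (f s i) z.1 (newX X p j.succ z).1 =
          if i = j then p s z.1 else 0 := fun s => h.rel s i j z.1
      have h2 : ∀ t, (newX X p j.succ z).2.1 t = 0 := fun t => rfl
      simp only [h1, h2, mul_zero, Finset.sum_const_zero, add_zero, Fin.succ_inj]
      by_cases hij : i = j
      · simp only [hij, if_true]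
        rfl
      · simp [hij]

theorem new_coords {E : Type} [NormedAddCommGroup E] [NormedSpace ℂ E] {ρ N : ℕ}
    (X : Fin ρ → E → E) (p : Fin N → E → ℂ)
    (hx : ∃ x : Fin ρ → E → ℂ, (∀ i, Differentiable ℂ (x i)) ∧
      ∀ i j y, fderiv ℂ (x i) y (X j y) = if i = j then 1 else 0) :
    ∃ x : Fin (ρ + 1) → newE E N → ℂ, (∀ i, Differentiable ℂ (x i)) ∧
      ∀ i j y, fderiv ℂ (x i) y (newX X p j y) = if i = j then 1 else 0 := by
  obtain ⟨x, hd, hr⟩ := hx
  have h0 : ∀ z : newE E N, HasFDerivAt (fun z : newE E N => z.2.2)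
      ((ContinuousLinearMap.snd ℂ (Fin N → ℂ) ℂ).comp
        (ContinuousLinearMap.snd ℂ E ((Fin N → ℂ) × ℂ))) z :=
    fun z => ((ContinuousLinearMap.snd ℂ (Fin N → ℂ) ℂ).comp
        (ContinuousLinearMap.snd ℂ E ((Fin N → ℂ) × ℂ))).hasFDerivAt
  have h1 : ∀ i, ∀ z : newE E N, HasFDerivAt (fun z : newE E N => x i z.1)
      ((fderiv ℂ (x i) z.1).comp (ContinuousLinearMap.fst ℂ E ((Fin N → ℂ) × ℂ))) z := by
    intro i z
    have h1 : HasFDerivAt (fun z : newE E N => z.1)
        (ContinuousLinearMap.fst ℂ E ((Fin N → ℂ) × ℂ)) z :=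
      (ContinuousLinearMap.fst ℂ E ((Fin N → ℂ) × ℂ)).hasFDerivAt
    exact (hd i z.1).hasFDerivAt.comp z h1
  refine ⟨Fin.cases (fun z => z.2.2) (fun i z => x i z.1), ?_, ?_⟩
  · intro i
    refine Fin.cases ?_ (fun i => ?_) i
    · exact fun z => (h0 z).differentiableAt
    · exact fun z => (h1 i z).differentiableAt
  · intro i j z
    refine Fin.cases ?_ (fun i => ?_) i
    · refine Fin.cases ?_ (fun j => ?_) j
      · show fderiv ℂ (fun z : newE E N => z.2.2) z _ = _
        rw [(h0 z).fderiv]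
        rfl
      · show fderiv ℂ (fun z : newE E N => z.2.2) z _ = _
        rw [(h0 z).fderiv, if_neg (Fin.succ_ne_zero j).symm]
        rfl
    · refine Fin.cases ?_ (fun j => ?_) j
      · show fderiv ℂ (fun z : newE E N => x i z.1) z _ = _
        rw [(h1 i z).fderiv, if_neg (Fin.succ_ne_zero i)]
        show fderiv ℂ (x i) z.1 (0 : E) = 0
        rw [map_zero]
      · show fderiv ℂ (fun z : newE E N => x i z.1) z _ = _
        rw [(h1 i z).fderiv]
        show fderiv ℂ (x i) z.1 (X j z.1) = _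
        rw [hr]
        simp only [Fin.succ_inj]

theorem new_iterD_lift {E : Type} [NormedAddCommGroup E] [NormedSpace ℂ E] {N : ℕ}
    (p : Fin N → E → ℂ) (P : MvPolynomial (Fin N) ℂ)
    (l : List (E → E))
    (hD : ∀ l' : List (E → E), l' <:+ l → ∀ s, Differentiable ℂ (iterD l' (p s))) :
    iterD (l.map fun V => fun z : newE E N => ((V z.1, 0) : newE E N))
      (fun z => ∑ s, p s z.1 * eval z.2.1 (pderiv s P)) =
    fun z => ∑ s, iterD l (p s) z.1 * eval z.2.1 (pderiv s P) := by
  induction l with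
  | nil => rfl
  | cons V l ih =>
    have hD' : ∀ l' : List (E → E), l' <:+ l → ∀ s, Differentiable ℂ (iterD l' (p s)) :=
      fun l' h s => hD l' (h.trans (List.suffix_cons V l)) s
    have ih' := ih hD'
    funext z
    have hkey : iterD ((V :: l).map fun V => fun z : newE E N => ((V z.1, 0) : newE E N))
        (fun z => ∑ s, p s z.1 * eval z.2.1 (pderiv s P)) z =
        fderiv ℂ (iterD (l.map fun V => fun z : newE E N => ((V z.1, 0) : newE E N))
          (fun z => ∑ s, p s z.1 * eval z.2.1 (pderiv s P))) z (V z.1, 0) := rfl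
    rw [hkey, ih']
    have h1 : ∀ s, HasFDerivAt (iterD l (p s)) (fderiv ℂ (iterD l (p s)) z.1) z.1 :=
      fun s => (hD l (List.suffix_cons V l) s z.1).hasFDerivAt
    have h2 : ∀ s, HasFDerivAt (fun z : newE E N => iterD l (p s) z.1)
        ((fderiv ℂ (iterD l (p s)) z.1).comp
          (ContinuousLinearMap.fst ℂ E ((Fin N → ℂ) × ℂ))) z :=
      fun s => HasFDerivAt.comp z (h1 s) hasFDerivAt_fst
    have h0 : HasFDerivAt (fun z : newE E N => z.2.1)
        ((ContinuousLinearMap.fst ℂ (Fin N → ℂ) ℂ).comp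
          (ContinuousLinearMap.snd ℂ E ((Fin N → ℂ) × ℂ))) z :=
      ((ContinuousLinearMap.fst ℂ (Fin N → ℂ) ℂ).comp
          (ContinuousLinearMap.snd ℂ E ((Fin N → ℂ) × ℂ))).hasFDerivAt
    have h3 : ∀ s, HasFDerivAt (fun z : newE E N => eval z.2.1 (pderiv s P))
        ((∑ t, eval z.2.1 (pderiv t (pderiv s P)) •
          (ContinuousLinearMap.proj (R := ℂ) (φ := fun _ : Fin N => ℂ) t)).comp
          ((ContinuousLinearMap.fst ℂ (Fin N → ℂ) ℂ).comp
          (ContinuousLinearMap.snd ℂ E ((Fin N → ℂ) × ℂ)))) z :=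
      fun s => HasFDerivAt.comp (g := fun u : Fin N → ℂ => eval u (pderiv s P))
        (f := fun z : newE E N => z.2.1) z (eval_hasFDerivAt (pderiv s P) z.2.1) h0
    have h4 := HasFDerivAt.fun_sum (u := Finset.univ) (fun s _ => (h2 s).mul (h3 s))
    have h5 : fderiv ℂ (fun z : newE E N => ∑ s, iterD l (p s) z.1 * eval z.2.1 (pderiv s P)) z
        = _ := HasFDerivAt.fderiv h4
    rw [h5]
    rw [sum_apply]
    refine Finset.sum_congr rfl fun s _ => ?_
    simp [iterD, mul_comm]

/-- vertical derivatives: `B y` is an arbitrary family of polynomials -/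
theorem vert_deriv {E : Type} [NormedAddCommGroup E] [NormedSpace ℂ E] {N : ℕ}
    (B : E → MvPolynomial (Fin N) ℂ)
    (hB : Differentiable ℂ (fun z : newE E N => eval z.2.1 (B z.1)))
    (z : newE E N) (v : Fin N → ℂ) :
    fderiv ℂ (fun z : newE E N => eval z.2.1 (B z.1)) z (0, (v, 0)) =
      eval z.2.1 (dirD v (B z.1)) := by
  have hγ : HasDerivAt (fun t : ℂ => ((z.1, (z.2.1 + t • v, z.2.2)) : newE E N))
      ((0, (v, 0)) : newE E N) 0 := by
    have e1 : HasDerivAt (fun t : ℂ => z.2.1 + t • v) v 0 := by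
      simpa using ((hasDerivAt_id (0 : ℂ)).smul_const v).const_add z.2.1
    have e2 : HasDerivAt (fun _ : ℂ => z.1) (0 : E) 0 := hasDerivAt_const _ _
    have e3 : HasDerivAt (fun _ : ℂ => z.2.2) (0 : ℂ) 0 := hasDerivAt_const _ _
    exact e2.prodMk (e1.prodMk e3)
  have hγ0 : (fun t : ℂ => ((z.1, (z.2.1 + t • v, z.2.2)) : newE E N)) 0 = z := by
    simp
  have hF : HasFDerivAt (fun z : newE E N => eval z.2.1 (B z.1))
      (fderiv ℂ (fun z : newE E N => eval z.2.1 (B z.1)) z)
      ((fun t : ℂ => ((z.1, (z.2.1 + t • v, z.2.2)) : newE E N)) 0) := by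
    rw [hγ0]; exact (hB z).hasFDerivAt
  have hc := hF.comp_hasDerivAt (0 : ℂ) hγ
  have e1 : HasDerivAt (fun t : ℂ => z.2.1 + t • v) v 0 := by
    simpa using ((hasDerivAt_id (0 : ℂ)).smul_const v).const_add z.2.1
  have hP : HasFDerivAt (fun u : Fin N → ℂ => eval u (B z.1))
      (∑ s, eval z.2.1 (pderiv s (B z.1)) •
        (ContinuousLinearMap.proj (R := ℂ) (φ := fun _ : Fin N => ℂ) s))
      ((fun t : ℂ => z.2.1 + t • v) 0) := by
    have : (fun t : ℂ => z.2.1 + t • v) 0 = z.2.1 := by simp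
    rw [this]; exact eval_hasFDerivAt _ _
  have hc2 := hP.comp_hasDerivAt (0 : ℂ) e1
  have heq := hc.unique hc2
  rw [heq, dirD]
  simp [mul_comm]

/-- The `j`-th derivative of `x ↦ ((k+1) x^k)_k`. -/
noncomputable def G (M j : ℕ) (x : ℂ) : Fin M → ℂ :=
  fun k => ((k : ℕ) + 1 : ℂ) * (Nat.descFactorial (k : ℕ) j : ℂ) * x ^ ((k : ℕ) - j)

theorem G_hasDerivAt (M j : ℕ) (x : ℂ) : HasDerivAt (G M j) (G M (j + 1) x) x := by
  rw [hasDerivAt_pi]
  intro k
  have h := (hasDerivAt_pow ((k : ℕ) - j) x).const_mul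
    (((k : ℕ) + 1 : ℂ) * (Nat.descFactorial (k : ℕ) j : ℂ))
  have e : G M (j + 1) x k = ((k : ℕ) + 1 : ℂ) * (Nat.descFactorial (k : ℕ) j : ℂ) *
      ((((k : ℕ) - j : ℕ) : ℂ) * x ^ ((k : ℕ) - j - 1)) := by
    unfold G
    rw [Nat.descFactorial_succ, Nat.cast_mul, Nat.sub_sub]
    ring
  rw [e]
  exact h

theorem G_span (M : ℕ) (x : ℂ) :
    Submodule.span ℂ (Set.range fun j : ℕ => G M j x) = ⊤ := by
  classical
  set S := Submodule.span ℂ (Set.range fun j : ℕ => G M j x) with hS
  have hsum : ∀ v : Fin M → ℂ, v = ∑ l, v l • (Pi.single l (1 : ℂ) : Fin M → ℂ) := by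
    intro v
    funext i
    rw [Finset.sum_apply, Finset.sum_eq_single i]
    · simp
    · intro l _ hl
      simp [Pi.single_apply, Ne.symm hl]
    · intro h
      exact absurd (Finset.mem_univ _) h
  have key : ∀ n : ℕ, ∀ k : Fin M, M - (k : ℕ) ≤ n →
      (Pi.single k (1 : ℂ) : Fin M → ℂ) ∈ S := by
    intro n
    induction n with
    | zero =>
      intro k hk
      have := k.2
      omega
    | succ n ih =>
      intro k hk
      have h1 := hsum (G M (k : ℕ) x)
      rw [← Finset.add_sum_erase _ _ (Finset.mem_univ k)] at h1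
      have h2 : ∑ l ∈ Finset.univ.erase k, G M (k : ℕ) x l •
          (Pi.single l (1 : ℂ) : Fin M → ℂ) ∈ S := by
        apply Submodule.sum_mem
        intro l hl
        have hlk : l ≠ k := Finset.ne_of_mem_erase hl
        rcases lt_or_gt_of_ne (fun h : (l : ℕ) = k => hlk (Fin.ext h)) with h | h
        · have e : G M (k : ℕ) x l = 0 := by
            unfold G
            rw [Nat.descFactorial_of_lt h]
            simp
          rw [e, zero_smul]
          exact zero_mem _
        · apply Submodule.smul_mem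
          apply ih
          have := k.2
          omega
      have h3 : G M (k : ℕ) x ∈ S := Submodule.subset_span ⟨(k : ℕ), rfl⟩
      have h4 : G M (k : ℕ) x k • (Pi.single k (1 : ℂ) : Fin M → ℂ) ∈ S := by
        have h5 := sub_mem h3 h2
        have h6 : G M (k : ℕ) x - ∑ l ∈ Finset.univ.erase k, G M (k : ℕ) x l •
          (Pi.single l (1 : ℂ) : Fin M → ℂ) =
            G M (k : ℕ) x k • (Pi.single k (1 : ℂ) : Fin M → ℂ) := by
          rw [sub_eq_iff_eq_add]
          exact h1
        rwa [h6] at h5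
      have h7 : G M (k : ℕ) x k ≠ 0 := by
        unfold G
        rw [Nat.descFactorial_self, Nat.sub_self, pow_zero, mul_one]
        apply mul_ne_zero
        · exact_mod_cast Nat.succ_ne_zero (k : ℕ)
        · exact_mod_cast Nat.factorial_ne_zero (k : ℕ)
      exact (Submodule.smul_mem_iff S h7).1 h4
  rw [eq_top_iff]
  intro v _
  rw [hsum v]
  exact Submodule.sum_mem _ fun l _ => Submodule.smul_mem _ _ (key (M) l (by omega))

theorem good_one_h1 (M j : ℕ) (k : Fin M) (x : ℂ) :
    HasDerivAt (fun y => G M j y k) (G M (j + 1) x k) x :=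
  (hasDerivAt_pi.1 (G_hasDerivAt M j x)) k

theorem good_one_h2 (M : ℕ) (k : Fin M) (j : ℕ) :
    iterD (List.replicate j (fun _ : ℂ => (1 : ℂ))) (fun y => G M 0 y k) = fun y => G M j y k := by
  induction j with
  | zero => rfl
  | succ j ih =>
    rw [List.replicate_succ, iterD, ih]
    funext y
    rw [(good_one_h1 M j k y).hasFDerivAt.fderiv]
    simp

theorem good_one_h3 (N : ℕ) (y : ℂ) (c : Fin N → ℂ)
    (h : ∀ j, 1 ≤ j → ∑ s : Fin N, c s * G (N + 1) j y s.succ = 0) : c = 0 := by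
  let c' : Fin (N + 1) → ℂ := Fin.cons (-∑ s : Fin N, c s * G (N + 1) 0 y s.succ) c
  let Φ : (Fin (N + 1) → ℂ) →ₗ[ℂ] ℂ :=
    { toFun := fun v => ∑ k, c' k * v k
      map_add' := fun v w => by
        simp only [Pi.add_apply, mul_add, Finset.sum_add_distrib]
      map_smul' := fun a v => by
        simp only [Pi.smul_apply, smul_eq_mul, RingHom.id_apply, Finset.mul_sum]
        refine Finset.sum_congr rfl fun k _ => ?_
        ring }
  have hΦ : ∀ j, Φ (G (N + 1) j y) = 0 := by
    intro j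
    show ∑ k, c' k * G (N + 1) j y k = 0
    rw [Fin.sum_univ_succ]
    have e1 : ∀ s : Fin N, c' s.succ = c s := fun s => rfl
    have e0 : c' 0 = -∑ s : Fin N, c s * G (N + 1) 0 y s.succ := rfl
    simp only [e1]
    rcases Nat.eq_zero_or_pos j with rfl | hj
    · have e2 : G (N + 1) 0 y 0 = 1 := by simp [G]
      rw [e0, e2, mul_one]
      ring
    · have e2 : G (N + 1) j y 0 = 0 := by
        obtain ⟨i, rfl⟩ : ∃ i, j = i + 1 := ⟨j - 1, by omega⟩
        simp [G]
      rw [e2, mul_zero, zero_add]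
      exact h j hj
  have hΦ0 : Φ = 0 := by
    have h1 : Submodule.span ℂ (Set.range fun j : ℕ => G (N + 1) j y) ≤ LinearMap.ker Φ := by
      rw [Submodule.span_le]
      rintro _ ⟨j, rfl⟩
      exact hΦ j
    rw [G_span] at h1
    exact LinearMap.ker_eq_top.1 (top_le_iff.1 h1)
  funext s
  have h1 : Φ (Pi.single s.succ 1) = c s := by
    show ∑ k, c' k * (Pi.single s.succ 1 : Fin (N + 1) → ℂ) k = c s
    rw [Finset.sum_eq_single s.succ]
    · rw [Pi.single_eq_same, mul_one]; rfl
    · intro k _ hk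
      rw [Pi.single_eq_of_ne hk, mul_zero]
    · intro hn; exact absurd (Finset.mem_univ _) hn
  rw [hΦ0] at h1
  exact h1.symm

/-- the base of the induction -/
theorem good_one (m : ℕ) : ∃ (N q : ℕ) (X : Fin 1 → ℂ → ℂ) (f : Fin N → Fin 1 → ℂ → ℂ)
    (p : Fin N → ℂ → ℂ) (g : Fin q → ℂ → ℂ), Sys X f p ∧
    (∀ s t i j, (fun y => f s i y * f t j y) ∈ Submodule.span ℂ (Set.range g)) ∧
    m ≤ N ∧ m * q ≤ N ^ 2 := by
  
  refine ⟨3 * m + 3, 2 * (3 * m + 3) + 3, fun _ _ => 1, fun s _ y => y ^ ((s : ℕ) + 2),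
    fun s y => G (3 * m + 3 + 1) 0 y s.succ, fun k y => y ^ (k : ℕ), ?_, ?_, by omega, by nlinarith⟩
  · have hpf : ∀ s : Fin (3 * m + 3), (fun y : ℂ => G (3 * m + 3 + 1) 0 y s.succ) =
        fun y => ((s : ℕ) + 2 : ℂ) * y ^ ((s : ℕ) + 1) := by
      intro s
      funext y
      simp only [G, Fin.val_succ, Nat.descFactorial_zero, Nat.sub_zero]
      push_cast
      ring
    constructor
    · exact fun i => contDiff_const
    · exact fun s i => contDiff_id.pow _
    · intro s
      rw [hpf s]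
      exact contDiff_const.mul (contDiff_id.pow _)
    · intro s i
      simp
    · intro s i j y
      have hij : i = j := Subsingleton.elim _ _
      rw [if_pos hij]
      have h1 := congrFun (hpf s) y
      rw [h1]
      have h2 : HasDerivAt (fun y : ℂ => y ^ ((s : ℕ) + 2))
          ((((s : ℕ) + 2 : ℕ) : ℂ) * y ^ ((s : ℕ) + 2 - 1)) y := hasDerivAt_pow _ y
      rw [h2.hasFDerivAt.fderiv]
      simp only [ContinuousLinearMap.toSpanSingleton_apply, smul_eq_mul, one_mul]
      push_cast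
      rfl
    · refine ⟨fun _ y => y, fun i => differentiable_id, fun i j y => ?_⟩
      have hij : i = j := Subsingleton.elim _ _
      rw [if_pos hij, (hasDerivAt_id' y).hasFDerivAt.fderiv]
      simp
    · intro y
      rw [eq_top_iff]
      have h1 : (1 : ℂ) ∈ Submodule.span ℂ
          {v : ℂ | ∃ F : ℂ → ℂ, Generated (fun (_ : Fin 1) (_ : ℂ) => (1 : ℂ)) F ∧ F y = v} :=
        Submodule.subset_span ⟨fun _ => 1, Generated.base (X := fun (_ : Fin 1) (_ : ℂ) => (1 : ℂ)) 0, rfl⟩
      intro z _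
      have h2 := Submodule.smul_mem _ z h1
      simpa using h2
    · intro y c hc
      apply good_one_h3 (3 * m + 3) y c
      intro j hj
      have h1 := hc (List.replicate j (fun _ : ℂ => (1 : ℂ)))
        (by
          intro h0
          have := congrArg List.length h0
          simp at this
          omega)
        (by
          intro V hV
          rw [List.eq_of_mem_replicate hV]
          exact Generated.base (X := fun (_ : Fin 1) (_ : ℂ) => (1 : ℂ)) 0)
      simp only [good_one_h2] at h1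
      exact h1
  · intro s t i j
    apply Submodule.subset_span
    refine ⟨⟨(s : ℕ) + 2 + ((t : ℕ) + 2), by omega⟩, ?_⟩
    funext y
    simp only
    rw [pow_add]

/-- a smooth function vanishing at 0 is bounded by a multiple of the norm on the unit ball -/
theorem lin_bound {E : Type} [NormedAddCommGroup E] [NormedSpace ℂ E] [FiniteDimensional ℂ E]
    (f : E → ℂ) (hf : ContDiff ℂ ω f) (h0 : f 0 = 0) :
    ∃ C : ℝ, 0 ≤ C ∧ ∀ y, ‖y‖ ≤ 1 → ‖f y‖ ≤ C * ‖y‖ := by
  haveI : ProperSpace E := FiniteDimensional.proper ℂ E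
  have hf1 : ContDiff ℂ 1 f := hf.of_le (by simp)
  have hc : Continuous (fderiv ℂ f) := hf1.continuous_fderiv (by simp)
  have hd : Differentiable ℂ f := hf1.differentiable (by simp)
  have hK : IsCompact (Metric.closedBall (0 : E) 1) := isCompact_closedBall _ _
  obtain ⟨C, hC⟩ := hK.exists_bound_of_continuousOn hc.continuousOn
  have hC0 : 0 ≤ C := (norm_nonneg _).trans (hC 0 (by simp))
  refine ⟨C, hC0, ?_⟩
  intro y hy
  have h := Convex.norm_image_sub_le_of_norm_fderiv_le (𝕜 := ℂ) (f := f) (C := C)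
    (s := Metric.closedBall (0 : E) 1) (x := 0) (y := y)
    (fun x _ => hd x) hC (convex_closedBall _ _) (by simp) (by simpa using hy)
  rw [h0, sub_zero, sub_zero] at h
  exact h

theorem eval_ne_zero {N : ℕ} (P : MvPolynomial (Fin N) ℂ) (hP : P ≠ 0) :
    ∃ u : Fin N → ℂ, eval u P ≠ 0 := by
  by_contra hcon
  push Not at hcon
  exact hP (MvPolynomial.funext (fun u => by rw [hcon u, map_zero]))

theorem new_products {E : Type} {ρ N N' q R : ℕ} (hR : 1 ≤ R)
    (f : Fin N → Fin ρ → E → ℂ) (g : Fin q → E → ℂ)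
    (hg : ∀ s t i j, (fun y => f s i y * f t j y) ∈ Submodule.span ℂ (Set.range g))
    (P : Fin N' → MvPolynomial (Fin N) ℂ) (hP : ∀ a, (P a).IsHomogeneous R)
    (hfin : ∀ D, FiniteDimensional ℂ (homogeneousSubmodule (Fin N) ℂ D)) :
    ∃ (q' : ℕ) (g' : Fin q' → newE E N → ℂ),
      (∀ a b i j, (fun z => newf f P a i z * newf f P b j z) ∈
        Submodule.span ℂ (Set.range g')) ∧
      q' ≤ Module.finrank ℂ (homogeneousSubmodule (Fin N) ℂ (2 * R)) +
        ρ * N * Module.finrank ℂ (homogeneousSubmodule (Fin N) ℂ (2 * R - 1)) +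
        q * Module.finrank ℂ (homogeneousSubmodule (Fin N) ℂ (2 * R - 2)) := by
  obtain ⟨q', g', h1, h2⟩ := new_products0 hR f g hg P hP hfin
  refine ⟨q', fun k z => g' k (z.1, z.2.1), ?_, h2⟩
  intro a b i j
  let T : (E × (Fin N → ℂ) → ℂ) →ₗ[ℂ] (newE E N → ℂ) :=
    LinearMap.funLeft ℂ ℂ (fun z : newE E N => (z.1, z.2.1))
  have h3 := Submodule.mem_map_of_mem (f := T) (h1 a b i j)
  rw [Submodule.map_span, ← Set.range_comp] at h3
  have h4 : T (fun z => newf0 f P a i z * newf0 f P b j z) =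
      fun z => newf f P a i z * newf f P b j z := by
    funext z
    refine Fin.cases ?_ (fun i => ?_) i <;> refine Fin.cases ?_ (fun j => ?_) j <;> rfl
  rw [h4] at h3
  exact h3

theorem dirD_add {N : ℕ} (v : Fin N → ℂ) (P Q : MvPolynomial (Fin N) ℂ) :
    dirD v (P + Q) = dirD v P + dirD v Q := by
  simp [dirD, mul_add, Finset.sum_add_distrib]

theorem dirD_smul {N : ℕ} (v : Fin N → ℂ) (c : ℂ) (P : MvPolynomial (Fin N) ℂ) :
    dirD v (c • P) = c • dirD v P := by
  simp [dirD, Finset.smul_sum]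

theorem foldr_dirD_sum {N N' : ℕ} (L : List (Fin N → ℂ)) (c : Fin N' → ℂ)
    (P : Fin N' → MvPolynomial (Fin N) ℂ) :
    L.foldr dirD (∑ a, c a • P a) = ∑ a, c a • L.foldr dirD (P a) := by
  induction L with
  | nil => rfl
  | cons v L ih =>
    simp only [List.foldr_cons]
    rw [ih]
    let T : MvPolynomial (Fin N) ℂ →ₗ[ℂ] MvPolynomial (Fin N) ℂ :=
      { toFun := dirD v, map_add' := dirD_add v, map_smul' := fun c P => dirD_smul v c P }
    have h : ∀ Q, dirD v Q = T Q := fun Q => rfl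
    simp only [h, map_sum, map_smul]

theorem iterD_append {E : Type} [NormedAddCommGroup E] [NormedSpace ℂ E]
    (l l' : List (E → E)) (g : E → ℂ) : iterD (l ++ l') g = iterD l (iterD l' g) := by
  induction l with
  | nil => rfl
  | cons V l ih => simp only [List.cons_append, iterD, ih]

theorem eval_dirD {N : ℕ} (v u : Fin N → ℂ) (P : MvPolynomial (Fin N) ℂ) :
    eval u (dirD v P) = ∑ t, v t * eval u (pderiv t P) := by
  simp [dirD, eval_sum]

section newsys

variable {E : Type} [NormedAddCommGroup E] [NormedSpace ℂ E] {ρ N N' R : ℕ}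

/-- the lifted field -/
def liftF (N : ℕ) (V : E → E) : newE E N → newE E N := fun z => (V z.1, 0)

/-- the vertical field attached to a list of fields -/
noncomputable def vertF (p : Fin N → E → ℂ) (l : List (E → E)) : newE E N → newE E N :=
  fun z => (0, (fun s => iterD l (p s) z.1, 0))

theorem iter_formula (X : Fin ρ → E → E) (f : Fin N → Fin ρ → E → ℂ) (p : Fin N → E → ℂ)
    (h : Sys X f p) (P : MvPolynomial (Fin N) ℂ) (l : List (E → E))
    (hl : ∀ V ∈ l, Generated X V)
    (LL : List (List (E → E))) (hLL : ∀ l' ∈ LL, l' ≠ [] ∧ ∀ V ∈ l', Generated X V) :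
    iterD (LL.map (vertF p) ++ l.map (liftF N))
      (fun z => ∑ s, p s z.1 * eval z.2.1 (pderiv s P)) =
    fun z => eval z.2.1 ((LL.map fun l' => fun s => iterD l' (p s) z.1).foldr dirD
      (dirD (fun s => iterD l (p s) z.1) P)) := by
  have hV : ∀ V, Generated X V → ContDiff ℂ ω V := fun V hV => generated_contDiff X h.hX V hV
  have hD : ∀ l : List (E → E), (∀ V ∈ l, Generated X V) → ∀ s, ContDiff ℂ ω (iterD l (p s)) :=
    fun l hl s => iterD_contDiff l (fun V hVl => hV V (hl V hVl)) (p s) (h.hp s)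
  have hev : ∀ Q : MvPolynomial (Fin N) ℂ, ContDiff ℂ ω (fun z : newE E N => eval z.2.1 Q) :=
    fun Q => (eval_contDiff Q).comp (contDiff_fst.comp contDiff_snd)
  have hbase : ContDiff ℂ ω (fun z : newE E N => ∑ s, p s z.1 * eval z.2.1 (pderiv s P)) :=
    ContDiff.sum fun s _ => ((h.hp s).comp contDiff_fst).mul (hev _)
  have hlift : ∀ V, Generated X V → ContDiff ℂ ω (liftF N V) := fun V hV' =>
    ((hV V hV').comp contDiff_fst).prodMk contDiff_const
  have hvert : ∀ l : List (E → E), (∀ V ∈ l, Generated X V) → ContDiff ℂ ω (vertF p l) :=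
    fun l hl => contDiff_const.prodMk
      ((contDiff_pi.mpr fun s => (hD l hl s).comp contDiff_fst).prodMk contDiff_const)
  induction LL with
  | nil =>
    have h1 := new_iterD_lift p P l (fun l' hl' s =>
      (hD l' (fun V hVl => hl V (hl'.subset hVl)) s).differentiable (by simp))
    simp only [List.map_nil, List.nil_append, List.foldr_nil]
    unfold liftF
    rw [h1]
    funext z
    rw [eval_dirD]
  | cons l' LL ih =>
    have ih' := ih (fun m hm => hLL m (List.mem_cons_of_mem _ hm))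
    simp only [List.map_cons, List.cons_append, iterD, List.foldr_cons]
    have hd : ContDiff ℂ ω (iterD (LL.map (vertF p) ++ l.map (liftF N))
        (fun z => ∑ s, p s z.1 * eval z.2.1 (pderiv s P))) := by
      apply iterD_contDiff _ _ _ hbase
      intro V hV'
      rw [List.mem_append, List.mem_map, List.mem_map] at hV'
      rcases hV' with ⟨m, hm, rfl⟩ | ⟨V', hV'', rfl⟩
      · exact hvert m (hLL m (List.mem_cons_of_mem _ hm)).2
      · exact hlift V' (hl V' hV'')
    rw [ih'] at hd ⊢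
    funext z
    exact vert_deriv (fun y => (LL.map fun l' => fun s => iterD l' (p s) y).foldr dirD
      (dirD (fun s => iterD l (p s) y) P)) (hd.differentiable (by simp)) z _

theorem new_sys (hR : 2 ≤ R)
    (X : Fin ρ → E → E) (f : Fin N → Fin ρ → E → ℂ) (p : Fin N → E → ℂ)
    (h : Sys X f p) (P : Fin N' → MvPolynomial (Fin N) ℂ)
    (hli : LinearIndependent ℂ P) (hP : ∀ a, (P a).IsHomogeneous R)
    (hc : ∀ a i j y, ∑ s, ∑ t, C (f s i y * f t j y) * pderiv s (pderiv t (P a)) = 0) :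
    Sys (newX X p) (newf f P) (newp p P) := by
  have hV : ∀ V, Generated X V → ContDiff ℂ ω V := fun V hV => generated_contDiff X h.hX V hV
  have hD : ∀ l : List (E → E), (∀ V ∈ l, Generated X V) → ∀ s, ContDiff ℂ ω (iterD l (p s)) :=
    fun l hl s => iterD_contDiff l (fun V hVl => hV V (hl V hVl)) (p s) (h.hp s)
  have hev : ∀ Q : MvPolynomial (Fin N) ℂ, ContDiff ℂ ω (fun z : newE E N => eval z.2.1 Q) :=
    fun Q => (eval_contDiff Q).comp (contDiff_fst.comp contDiff_snd)
  refine ⟨?_, ?_, ?_, ?_, fun a i j z => new_rel X f p h P hc a i j z, new_coords X p h.hx,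
    ?_, ?_⟩
  · intro i
    refine Fin.cases ?_ (fun i => ?_) i
    · show ContDiff ℂ ω (fun z : newE E N => ((0, (fun s => p s z.1, 1)) : newE E N))
      exact contDiff_const.prodMk
        ((contDiff_pi.mpr fun s => (h.hp s).comp contDiff_fst).prodMk contDiff_const)
    · show ContDiff ℂ ω (fun z : newE E N => ((X i z.1, 0) : newE E N))
      exact ((h.hX i).comp contDiff_fst).prodMk contDiff_const
  · intro a i
    refine Fin.cases ?_ (fun i => ?_) i
    · exact hev (P a)
    · show ContDiff ℂ ω (fun z : newE E N => ∑ s, f s i z.1 * eval z.2.1 (pderiv s (P a)))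
      exact ContDiff.sum fun s _ => ((h.hf s i).comp contDiff_fst).mul (hev _)
  · intro a
    exact ContDiff.sum fun s _ => ((h.hp s).comp contDiff_fst).mul (hev _)
  · intro a i
    refine Fin.cases ?_ (fun i => ?_) i
    · show eval (0 : Fin N → ℂ) (P a) = 0
      obtain ⟨C, hC, hb⟩ := eval_bound (P a) (hP a)
      have h1 := hb 0
      rw [norm_zero, zero_pow (by omega), mul_zero] at h1
      exact norm_le_zero_iff.mp h1
    · show ∑ s, f s i (0 : E) * _ = 0
      simp [h.f0]
  · intro z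
    set S := Submodule.span ℂ {v : newE E N | ∃ F : newE E N → newE E N,
      Generated (newX X p) F ∧ F z = v} with hS
    have hm : ∀ F : newE E N → newE E N, Generated (newX X p) F → F z ∈ S :=
      fun F hF => Submodule.subset_span ⟨F, hF, rfl⟩
    have hU : Submodule.span ℂ {v : Fin N → ℂ | ∃ l : List (E → E), l ≠ [] ∧
        (∀ V ∈ l, Generated X V) ∧ v = fun s => iterD l (p s) z.1} = ⊤ :=
      span_top_of_dual _ (fun c hc' => h.nd z.1 c
        (fun l hne hl => hc' _ ⟨l, hne, hl, rfl⟩))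
    have h1 : ∀ e : E, ((e, 0) : newE E N) ∈ S := by
      intro e
      have he : e ∈ Submodule.span ℂ {v : E | ∃ F : E → E, Generated X F ∧ F z.1 = v} := by
        rw [h.bg z.1]; trivial
      have hmm := Submodule.mem_map_of_mem (f := LinearMap.inl ℂ E ((Fin N → ℂ) × ℂ)) he
      rw [Submodule.map_span] at hmm
      refine (Submodule.span_le.mpr ?_) hmm
      rintro _ ⟨_, ⟨V, hVg, rfl⟩, rfl⟩
      exact hm _ (lift_generated X p hV V hVg)
    have h2 : ∀ u : Fin N → ℂ, ((0, (u, 0)) : newE E N) ∈ S := by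
      intro u
      have hu : u ∈ Submodule.span ℂ {v : Fin N → ℂ | ∃ l : List (E → E), l ≠ [] ∧
        (∀ V ∈ l, Generated X V) ∧ v = fun s => iterD l (p s) z.1} := by
        rw [hU]; trivial
      have hmm := Submodule.mem_map_of_mem (f := (LinearMap.inr ℂ E
        ((Fin N → ℂ) × ℂ)).comp (LinearMap.inl ℂ (Fin N → ℂ) ℂ)) hu
      rw [Submodule.map_span] at hmm
      refine (Submodule.span_le.mpr ?_) hmm
      rintro _ ⟨_, ⟨l, hne, hl, rfl⟩, rfl⟩
      exact hm _ (vert_generated X p hV hD l hne hl)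
    have h3 : ((0, (0, 1)) : newE E N) ∈ S := by
      have h4 := hm _ (Generated.base (X := newX X p) 0)
      have h5 : newX X p 0 z = ((0, (fun s => p s z.1, 1)) : newE E N) := rfl
      rw [h5] at h4
      have h6 := S.sub_mem h4 (h2 (fun s => p s z.1))
      simpa using h6
    rw [eq_top_iff]
    rintro ⟨e, u, w⟩ -
    have h7 : ((e, (u, w)) : newE E N) = (e, 0) + (0, (u, 0)) + w • ((0, (0, 1)) : newE E N) := by
      simp
    rw [h7]
    exact S.add_mem (S.add_mem (h1 e) (h2 u)) (S.smul_mem _ h3)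
  · intro z c hz
    by_contra hc0
    set Q := ∑ a, c a • P a with hQ
    have hQ0 : Q ≠ 0 := by
      intro h0
      apply hc0
      have := Fintype.linearIndependent_iff.mp hli c h0
      funext a
      exact this a
    have hQh : Q.IsHomogeneous R := by
      rw [hQ]
      apply IsHomogeneous.sum
      intro a _
      have := (isHomogeneous_C (Fin N) (c a)).mul (hP a)
      rw [zero_add] at this
      rw [smul_eq_C_mul]
      exact this
    set S : Set (Fin N → ℂ) := {v : Fin N → ℂ | ∃ l : List (E → E), l ≠ [] ∧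
        (∀ V ∈ l, Generated X V) ∧ v = fun s => iterD l (p s) z.1} with hSdef
    have hU : Submodule.span ℂ S = ⊤ :=
      span_top_of_dual _ (fun c hc' => h.nd z.1 c
        (fun l hne hl => hc' _ ⟨l, hne, hl, rfl⟩))
    obtain ⟨L, hLlen, hLS, c0, hc0', hLc⟩ := dirD_exists S hU R Q hQh hQ0
    have hLL : ∀ L : List (Fin N → ℂ), (∀ v ∈ L, v ∈ S) → ∃ LL : List (List (E → E)),
        (∀ l' ∈ LL, l' ≠ [] ∧ ∀ V ∈ l', Generated X V) ∧
        (LL.map fun l' => fun s => iterD l' (p s) z.1) = L := by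
      intro L hL
      induction L with
      | nil => exact ⟨[], by simp, rfl⟩
      | cons v L ih =>
        obtain ⟨LL, h1, h2⟩ := ih (fun w hw => hL w (List.mem_cons_of_mem _ hw))
        obtain ⟨l, hne, hl, rfl⟩ := hL v List.mem_cons_self
        refine ⟨l :: LL, ?_, ?_⟩
        · intro l' hl'
          rcases List.mem_cons.mp hl' with rfl | h'
          · exact ⟨hne, hl⟩
          · exact h1 l' h'
        · simp only [List.map_cons, h2]
    obtain ⟨LL, hLL1, hLL2⟩ := hLL L hLS
    have hlen : LL.length = R := by rw [← hLlen, ← hLL2, List.length_map]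
    obtain ⟨LL', l, rfl⟩ : ∃ LL' l, LL = LL' ++ [l] := by
      have hne : LL ≠ [] := by
        intro h0; rw [h0] at hlen; simp at hlen; omega
      exact ⟨LL.dropLast, LL.getLast hne, (List.dropLast_append_getLast hne).symm⟩
    have hl := (hLL1 l (by simp)).2
    have hLL' : ∀ l' ∈ LL', l' ≠ [] ∧ ∀ V ∈ l', Generated X V :=
      fun l' hl' => hLL1 l' (by simp [hl'])
    have hlen' : LL' ≠ [] := by
      intro h0; rw [h0] at hlen; simp at hlen; omega
    have hz' := hz (LL'.map (vertF p) ++ l.map (liftF N)) (by simp [hlen']) (by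
      intro V hV'
      rw [List.mem_append, List.mem_map, List.mem_map] at hV'
      rcases hV' with ⟨m, hm, rfl⟩ | ⟨V', hV'', rfl⟩
      · exact vert_generated X p hV hD m (hLL' m hm).1 (hLL' m hm).2
      · exact lift_generated X p hV V' (hl V' hV''))
    have hform : ∀ a, iterD (LL'.map (vertF p) ++ l.map (liftF N)) (newp p P a) z =
        eval z.2.1 (L.foldr dirD (P a)) := by
      intro a
      have h1 := congrFun (iter_formula X f p h (P a) l hl LL' hLL') z
      rw [← hLL2, List.map_append, List.foldr_append]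
      exact h1
    simp only [hform] at hz'
    have hfin : eval z.2.1 (L.foldr dirD Q) = 0 := by
      rw [hQ, foldr_dirD_sum, eval_sum]
      simpa [smul_eval] using hz'
    rw [hLc, eval_C] at hfin
    exact hc0' hfin

end newsys

def Good (ρ m : ℕ) : Prop :=
  ∃ (E : Type) (_ : NormedAddCommGroup E) (_ : NormedSpace ℂ E) (_ : FiniteDimensional ℂ E)
    (N q : ℕ) (X : Fin ρ → E → E) (f : Fin N → Fin ρ → E → ℂ) (p : Fin N → E → ℂ)
    (g : Fin q → E → ℂ), Sys X f p ∧
    (∀ s t i j, (fun y => f s i y * f t j y) ∈ Submodule.span ℂ (Set.range g)) ∧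
    m ≤ N ∧ m * q ≤ N ^ 2

theorem good_step (ρ : ℕ) (hgood : ∀ m, Good ρ m) (m' : ℕ) : Good (ρ + 1) m' := by
  obtain ⟨R, m, hR, hnum⟩ := num_step ρ m'
  obtain ⟨E, _, _, _, N, q, X, f, p, g, hS, hg, hN, hq⟩ := hgood m
  obtain ⟨N', P, hli, hP, hc, hdim⟩ := exists_forms hR f g hg (finDim_homog N)
  obtain ⟨q', g', hg', hq'⟩ := new_products (by omega : 1 ≤ R) f g hg P hP (finDim_homog N)
  simp only [finrank_homog] at hdim hq'
  obtain ⟨h1, h2⟩ := hnum N q N' hN hq hdim
  exact ⟨newE E N, inferInstance, inferInstance, inferInstance, N', q', newX X p, newf f P,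
    newp p P, g', new_sys hR X f p hS P hli hP hc, hg', h1,
    (Nat.mul_le_mul_left _ hq').trans h2⟩

theorem good_all (ρ : ℕ) (hρ : 1 ≤ ρ) : ∀ m, Good ρ m := by
  induction ρ, hρ using Nat.le_induction with
  | base =>
    intro m
    obtain ⟨N, q, X, f, p, g, h⟩ := good_one m
    exact ⟨ℂ, inferInstance, inferInstance, inferInstance, N, q, X, f, p, g, h⟩
  | succ ρ _ ih => exact good_step ρ ih

/-- a system with a solution vanishing to order `r` -/
def HasOrder (ρ r : ℕ) : Prop :=
  ∃ (E : Type) (_ : NormedAddCommGroup E) (_ : NormedSpace ℂ E) (_ : FiniteDimensional ℂ E)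
    (X : Fin ρ → E → E) (f : Fin ρ → E → ℂ) (p : E → ℂ),
    (∀ i, ContDiff ℂ ω (X i)) ∧ (∀ i, ContDiff ℂ ω (f i)) ∧
    (∀ i j y, fderiv ℂ (f i) y (X j y) = if i = j then p y else 0) ∧
    (∃ x : Fin ρ → E → ℂ, (∀ i, Differentiable ℂ (x i)) ∧
      ∀ i j y, fderiv ℂ (x i) y (X j y) = if i = j then 1 else 0) ∧
    (∀ y, Submodule.span ℂ {v : E | ∃ F : E → E, Generated X F ∧ F y = v} = ⊤) ∧
    (∃ i y, f i y ≠ 0) ∧
    (∃ C : ℝ, 0 ≤ C ∧ ∀ i y, ‖y‖ ≤ 1 → ‖f i y‖ ≤ C * ‖y‖ ^ r)

theorem hasOrder_one (r : ℕ) : HasOrder 1 r := by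
  refine ⟨ℂ, inferInstance, inferInstance, inferInstance, fun _ _ => 1, fun _ y => y ^ (r + 1),
    fun y => ((r + 1 : ℕ) : ℂ) * y ^ r, ?_, ?_, ?_, ?_, ?_, ?_, ?_⟩
  · intro i
    exact contDiff_const
  · intro i
    exact contDiff_id.pow (r + 1)
  · intro i j y
    rw [if_pos (Subsingleton.elim i j)]
    have h1 : HasDerivAt (fun y : ℂ => y ^ (r + 1)) (((r + 1 : ℕ) : ℂ) * y ^ (r + 1 - 1)) y :=
      hasDerivAt_pow (r + 1) y
    rw [h1.hasFDerivAt.fderiv]
    simp
  · refine ⟨fun _ y => y, fun _ => differentiable_id, ?_⟩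
    intro i j y
    rw [if_pos (Subsingleton.elim i j)]
    have h1 : HasDerivAt (fun y : ℂ => y) 1 y := hasDerivAt_id y
    rw [h1.hasFDerivAt.fderiv]
    simp
  · intro y
    rw [Submodule.eq_top_iff']
    intro v
    have h1 : (1 : ℂ) ∈ Submodule.span ℂ {v : ℂ | ∃ F : ℂ → ℂ,
        Generated (fun (_ : Fin 1) (_ : ℂ) => (1 : ℂ)) F ∧ F y = v} :=
      Submodule.subset_span ⟨fun _ => 1, Generated.base 0, rfl⟩
    have h2 := Submodule.smul_mem _ v h1
    simpa using h2
  · refine ⟨0, 1, ?_⟩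
    simp
  · refine ⟨1, zero_le_one, ?_⟩
    intro i y hy
    rw [norm_pow, pow_succ, one_mul]
    exact mul_le_of_le_one_right (by positivity) hy

theorem pow_bound {E : Type} [NormedAddCommGroup E] [NormedSpace ℂ E] [FiniteDimensional ℂ E]
    {ρ N r : ℕ} (hr : 2 ≤ r) (f : Fin N → Fin ρ → E → ℂ) (hf : ∀ s i, ContDiff ℂ ω (f s i))
    (f0 : ∀ s i, f s i 0 = 0) (P : Fin 1 → MvPolynomial (Fin N) ℂ)
    (hP : (P 0).IsHomogeneous r) :
    ∃ C : ℝ, 0 ≤ C ∧ ∀ i (y : newE E N), ‖y‖ ≤ 1 → ‖newf f P 0 i y‖ ≤ C * ‖y‖ ^ r := by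
  obtain ⟨C0, hC0, hC0'⟩ := eval_bound (P 0) hP
  have hpd : ∀ s : Fin N, (pderiv s (P 0)).IsHomogeneous (r - 1) := fun s => hP.pderiv
  choose C1 hC1 hC1' using fun (s : Fin N) (j : Fin ρ) => lin_bound (f s j) (hf s j) (f0 s j)
  choose C2 hC2 hC2' using fun s : Fin N => eval_bound (pderiv s (P 0)) (hpd s)
  have hsum : ∀ j : Fin ρ, 0 ≤ ∑ s, C1 s j * C2 s := fun j =>
    Finset.sum_nonneg fun s _ => mul_nonneg (hC1 s j) (hC2 s)
  refine ⟨C0 + ∑ j, ∑ s, C1 s j * C2 s,
    add_nonneg hC0 (Finset.sum_nonneg fun j _ => hsum j), fun i y hy => ?_⟩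
  have hy1 : ‖y.1‖ ≤ ‖y‖ := norm_fst_le y
  have hy2 : ‖y.2.1‖ ≤ ‖y‖ := (norm_fst_le y.2).trans (norm_snd_le y)
  have hyr : 0 ≤ ‖y‖ ^ r := pow_nonneg (norm_nonneg _) _
  refine Fin.cases ?_ (fun j => ?_) i
  · show ‖eval y.2.1 (P 0)‖ ≤ _
    calc ‖eval y.2.1 (P 0)‖ ≤ C0 * ‖y.2.1‖ ^ r := hC0' _
      _ ≤ C0 * ‖y‖ ^ r := mul_le_mul_of_nonneg_left (pow_le_pow_left₀ (norm_nonneg _) hy2 r) hC0
      _ ≤ (C0 + ∑ j, ∑ s, C1 s j * C2 s) * ‖y‖ ^ r :=
        mul_le_mul_of_nonneg_right
          (le_add_of_nonneg_right (Finset.sum_nonneg fun j _ => hsum j)) hyr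
  · show ‖∑ s, f s j y.1 * eval y.2.1 (pderiv s (P 0))‖ ≤ _
    have h1 : ∀ s : Fin N, ‖f s j y.1 * eval y.2.1 (pderiv s (P 0))‖ ≤
        C1 s j * C2 s * ‖y‖ ^ r := by
      intro s
      rw [norm_mul]
      have h2 : ‖f s j y.1‖ ≤ C1 s j * ‖y‖ :=
        (hC1' s j y.1 (hy1.trans hy)).trans (mul_le_mul_of_nonneg_left hy1 (hC1 s j))
      have h3 : ‖eval y.2.1 (pderiv s (P 0))‖ ≤ C2 s * ‖y‖ ^ (r - 1) :=
        (hC2' s y.2.1).trans (mul_le_mul_of_nonneg_left
          (pow_le_pow_left₀ (norm_nonneg _) hy2 (r - 1)) (hC2 s))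
      calc ‖f s j y.1‖ * ‖eval y.2.1 (pderiv s (P 0))‖
          ≤ (C1 s j * ‖y‖) * (C2 s * ‖y‖ ^ (r - 1)) :=
            mul_le_mul h2 h3 (norm_nonneg _) (mul_nonneg (hC1 s j) (norm_nonneg _))
        _ = C1 s j * C2 s * (‖y‖ * ‖y‖ ^ (r - 1)) := by ring
        _ = C1 s j * C2 s * ‖y‖ ^ r := by
            rw [← pow_succ', Nat.sub_add_cancel (by omega)]
    calc ‖∑ s, f s j y.1 * eval y.2.1 (pderiv s (P 0))‖
        ≤ ∑ s, ‖f s j y.1 * eval y.2.1 (pderiv s (P 0))‖ := norm_sum_le _ _
      _ ≤ ∑ s, C1 s j * C2 s * ‖y‖ ^ r := Finset.sum_le_sum fun s _ => h1 s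
      _ = (∑ s, C1 s j * C2 s) * ‖y‖ ^ r := by rw [Finset.sum_mul]
      _ ≤ (C0 + ∑ j, ∑ s, C1 s j * C2 s) * ‖y‖ ^ r := by
        refine mul_le_mul_of_nonneg_right ?_ hyr
        have h4 : ∑ s, C1 s j * C2 s ≤ ∑ j, ∑ s, C1 s j * C2 s :=
          Finset.single_le_sum (f := fun j => ∑ s, C1 s j * C2 s) (fun j _ => hsum j)
            (Finset.mem_univ j)
        linarith

theorem hasOrder (ρ r : ℕ) (hρ : 1 ≤ ρ) (hr : 2 ≤ r) : HasOrder ρ r := by
  obtain ⟨σ, rfl⟩ : ∃ σ, ρ = σ + 1 := ⟨ρ - 1, by omega⟩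
  rcases Nat.eq_zero_or_pos σ with rfl | hσ
  · exact hasOrder_one r
  obtain ⟨m, hm⟩ := num_final σ r hr
  obtain ⟨E, _, _, _, N, q, X, f, p, g, hS, hg, hN, hq⟩ := good_all σ hσ m
  obtain ⟨N', P', hli', hP', hc', hdim⟩ := exists_forms hr f g hg (finDim_homog N)
  simp only [finrank_homog] at hdim
  have hlt := hm N q hN hq
  have hN' : 0 < N' := by omega
  let P : Fin 1 → MvPolynomial (Fin N) ℂ := fun _ => P' ⟨0, hN'⟩
  have hne : P' ⟨0, hN'⟩ ≠ 0 := hli'.ne_zero _
  have hli : LinearIndependent ℂ P := by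
    rw [linearIndependent_unique_iff]
    exact hne
  have hP : ∀ a, (P a).IsHomogeneous r := fun a => hP' _
  have hc : ∀ a i j y, ∑ s, ∑ t, C (f s i y * f t j y) * pderiv s (pderiv t (P a)) = 0 :=
    fun a i j y => hc' _ i j y
  have hS' := new_sys hr X f p hS P hli hP hc
  refine ⟨newE E N, inferInstance, inferInstance, inferInstance, newX X p, newf f P 0, newp p P 0,
    hS'.hX, fun i => hS'.hf 0 i, fun i j y => hS'.rel 0 i j y, hS'.hx, hS'.bg, ?_,
    pow_bound hr f hS.hf hS.f0 P (hP 0)⟩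
  obtain ⟨u, hu⟩ := eval_ne_zero (P 0) hne
  exact ⟨0, ((0, (u, 0)) : newE E N), hu⟩

end aux

/-- data attached to a square zero endomorphism of rank `ρ` -/
structure Data {W : Type} [NormedAddCommGroup W] [NormedSpace ℂ W] (A : W →ₗ[ℂ] W) (ρ : ℕ) where
  K : Submodule ℂ W
  π : W →L[ℂ] K
  α : Fin ρ → W →L[ℂ] ℂ
  e : Fin ρ → W
  r : Fin ρ → K
  πK : ∀ κ : K, π (κ : W) = κ
  αK : ∀ i (κ : K), α i (κ : W) = 0
  dec : ∀ w, w = (π w : W) + ∑ i, α i w • e i
  πe : ∀ i, π (e i) = 0
  αe : ∀ i j, α i (e j) = if i = j then 1 else 0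
  Aw : ∀ w, A w = ((∑ i, α i w • r i : K) : W)
  r0 : ∀ i, r i ≠ 0
  lin : LinearIndependent ℂ r

theorem exists_data {W : Type} [NormedAddCommGroup W] [NormedSpace ℂ W] [FiniteDimensional ℂ W]
    (A : W →ₗ[ℂ] W) (hA : ∀ w, A (A w) = 0) :
    Nonempty (Data A (Module.finrank ℂ (LinearMap.range A))) := by
  classical
  let b := Module.finBasis ℂ (LinearMap.range A)
  have he : ∀ i, ∃ w : W, A w = (b i : W) := fun i => (b i).2
  choose e he using he
  let α0 : Fin (Module.finrank ℂ (LinearMap.range A)) → W →ₗ[ℂ] ℂ :=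
    fun i => (b.coord i) ∘ₗ A.rangeRestrict
  have hα : ∀ i w, α0 i w = b.coord i (A.rangeRestrict w) := fun i w => rfl
  have hAsum : ∀ w, A w = ∑ i, α0 i w • (b i : W) := by
    intro w
    have h1 := b.sum_repr (A.rangeRestrict w)
    have h2 := congrArg Subtype.val h1
    rw [Submodule.coe_sum] at h2
    simp only [Submodule.coe_smul] at h2
    have h3 : ((A.rangeRestrict w : LinearMap.range A) : W) = A w := rfl
    rw [← h3, ← h2]
    rfl
  have hαe : ∀ i j, α0 i (e j) = if i = j then 1 else 0 := by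
    intro i j
    have h1 : A.rangeRestrict (e j) = b j := Subtype.ext (he j)
    rw [hα, h1, Module.Basis.coord_apply, Module.Basis.repr_self, Finsupp.single_apply]
    by_cases h : i = j
    · rw [if_pos h, if_pos h.symm]
    · rw [if_neg h, if_neg (fun h' => h h'.symm)]
  have hαK : ∀ i (κ : LinearMap.ker A), α0 i (κ : W) = 0 := by
    intro i κ
    have h1 : A.rangeRestrict (κ : W) = 0 := Subtype.ext κ.2
    rw [hα, h1, map_zero]
  let π0 : W →ₗ[ℂ] W := LinearMap.id - ∑ i, (α0 i).smulRight (e i)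
  have hπ0 : ∀ w, π0 w = w - ∑ i, α0 i w • e i := by
    intro w
    simp [π0, LinearMap.sum_apply]
  have hπm : ∀ w, π0 w ∈ LinearMap.ker A := by
    intro w
    rw [LinearMap.mem_ker, hπ0, map_sub, map_sum]
    simp only [map_smul, he]
    rw [← hAsum, sub_self]
  let π1 : W →ₗ[ℂ] LinearMap.ker A := π0.codRestrict (LinearMap.ker A) hπm
  have hbK : ∀ i, (b i : W) ∈ LinearMap.ker A := by
    intro i
    rw [LinearMap.mem_ker, ← he i]
    exact hA _
  exact ⟨{
    K := LinearMap.ker A
    π := LinearMap.toContinuousLinearMap π1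
    α := fun i => LinearMap.toContinuousLinearMap (α0 i)
    e := e
    r := fun i => ⟨(b i : W), hbK i⟩
    πK := by
      intro κ
      apply Subtype.ext
      show π0 (κ : W) = κ
      rw [hπ0]
      simp [hαK]
    αK := hαK
    dec := by
      intro w
      show w = π0 w + ∑ i, α0 i w • e i
      rw [hπ0, sub_add_cancel]
    πe := by
      intro i
      apply Subtype.ext
      show π0 (e i) = 0
      rw [hπ0]
      simp [hαe]
    αe := hαe
    Aw := by
      intro w
      rw [Submodule.coe_sum]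
      exact hAsum w
    r0 := by
      intro i h
      have h1 : (b i : W) = 0 := congrArg Subtype.val h
      exact b.ne_zero i (Subtype.ext h1)
    lin := by
      have h1 : LinearIndependent ℂ (fun i => (b i : W)) :=
        b.linearIndependent.map' (LinearMap.range A).subtype (Submodule.ker_subtype _)
      exact LinearIndependent.of_comp (LinearMap.ker A).subtype h1 }⟩

section construction

variable {W : Type} [NormedAddCommGroup W] [NormedSpace ℂ W] [FiniteDimensional ℂ W]
  {A : W →ₗ[ℂ] W} {ρ : ℕ} {E : Type} [NormedAddCommGroup E] [NormedSpace ℂ E]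

/-- the frame -/
noncomputable def frame (d : Data A ρ) (X : Fin ρ → E → E) (y : d.K × E) : W →L[ℂ] d.K × E :=
  d.π.prod 0 + ∑ i, (d.α i).smulRight ((0, X i y.2) : d.K × E)

theorem frame_apply (d : Data A ρ) (X : Fin ρ → E → E) (y : d.K × E) (w : W) :
    frame d X y w = (d.π w, ∑ i, d.α i w • X i y.2) := by
  have h : ∀ s : Finset (Fin ρ), ∑ i ∈ s, d.α i w • ((0, X i y.2) : d.K × E) =
      (0, ∑ i ∈ s, d.α i w • X i y.2) := by
    intro s
    induction s using Finset.induction_on with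
    | empty => simp; rfl
    | insert a s ha ih => rw [Finset.sum_insert ha, Finset.sum_insert ha, ih]; simp
  simp only [frame, ContinuousLinearMap.add_apply, ContinuousLinearMap.prod_apply,
    ContinuousLinearMap.zero_apply, ContinuousLinearMap.sum_apply,
    ContinuousLinearMap.smulRight_apply]
  rw [h]
  simp

/-- the symmetry -/
noncomputable def sym (d : Data A ρ) (f : Fin ρ → E → ℂ) (y : d.K × E) : d.K × E :=
  (∑ i, f i y.2 • d.r i, 0)

theorem frame_contDiff (d : Data A ρ) (X : Fin ρ → E → E) (hX : ∀ i, ContDiff ℂ ω (X i)) :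
    ContDiff ℂ ω (frame d X) := by
  refine contDiff_const.add (ContDiff.sum fun i _ => ?_)
  exact contDiff_const.smulRight (contDiff_const.prodMk ((hX i).comp contDiff_snd))

theorem sym_contDiff (d : Data A ρ) (f : Fin ρ → E → ℂ) (hf : ∀ i, ContDiff ℂ ω (f i)) :
    ContDiff ℂ ω (sym d f) :=
  (ContDiff.sum fun i _ => ((hf i).comp contDiff_snd).smul contDiff_const).prodMk contDiff_const

theorem frame_injective (d : Data A ρ) (X : Fin ρ → E → E)
    (hx : ∃ x : Fin ρ → E → ℂ, (∀ i, Differentiable ℂ (x i)) ∧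
      ∀ i j y, fderiv ℂ (x i) y (X j y) = if i = j then 1 else 0) (y : d.K × E) :
    Function.Injective (frame d X y) := by
  obtain ⟨x, _, hx⟩ := hx
  rw [injective_iff_map_eq_zero]
  intro w hw
  rw [frame_apply] at hw
  simp only [Prod.mk_eq_zero] at hw
  obtain ⟨h1, h2⟩ := hw
  have h3 : ∀ j, d.α j w = 0 := by
    intro j
    have h4 := congrArg (fderiv ℂ (x j) y.2) h2
    rw [map_sum, map_zero] at h4
    simpa [hx] using h4
  rw [d.dec w, h1]
  simp [h3]

theorem sym_deriv (d : Data A ρ) (X : Fin ρ → E → E) (f : Fin ρ → E → ℂ) (p : E → ℂ)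
    (hf : ∀ i, ContDiff ℂ ω (f i))
    (rel : ∀ i j y, fderiv ℂ (f i) y (X j y) = if i = j then p y else 0)
    (y : d.K × E) (s : ℂ) (w : W) :
    (fderiv ℂ (fun z => z + s • sym d f z) y) (frame d X y w) =
      frame d X y (w + (s * p y.2) • A w) := by
  have hfd : ∀ i, HasFDerivAt (fun z : d.K × E => f i z.2)
      ((fderiv ℂ (f i) y.2).comp (ContinuousLinearMap.snd ℂ d.K E)) y := fun i =>
    HasFDerivAt.comp y ((hf i).differentiable (by simp) y.2).hasFDerivAt
      (ContinuousLinearMap.snd ℂ d.K E).hasFDerivAt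
  have hK : HasFDerivAt (fun z : d.K × E => ∑ i, f i z.2 • d.r i) _ y :=
    HasFDerivAt.fun_sum (u := Finset.univ) fun i _ => (hfd i).smul_const (d.r i)
  have hsym0 := hK.prodMk (hasFDerivAt_const (0 : E) y)
  have hsym : HasFDerivAt (fun z : d.K × E => sym d f z) _ y := hsym0
  have hphi0 := (hasFDerivAt_id y).add (hsym.const_smul s)
  have hphi : HasFDerivAt (fun z : d.K × E => z + s • sym d f z) _ y := hphi0
  rw [hphi.fderiv, frame_apply, frame_apply]
  have hπ : d.π (A w) = ∑ i, d.α i w • d.r i := by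
    rw [d.Aw w, d.πK]
  have hα : ∀ i, d.α i (A w) = 0 := by
    intro i; rw [d.Aw w, d.αK]
  have hdir : ∀ i, fderiv ℂ (f i) y.2 (∑ j, d.α j w • X j y.2) = d.α i w * p y.2 := by
    intro i
    rw [map_sum]
    simp [rel]
  simp only [ContinuousLinearMap.add_apply, ContinuousLinearMap.id_apply,
    ContinuousLinearMap.smul_apply, ContinuousLinearMap.prod_apply,
    ContinuousLinearMap.sum_apply, ContinuousLinearMap.smulRight_apply,
    ContinuousLinearMap.comp_apply, ContinuousLinearMap.coe_snd', hdir,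
    ContinuousLinearMap.zero_apply, map_add, map_smul, hπ, hα]
  refine Prod.ext ?_ ?_
  · simp only [Prod.fst_add, Prod.smul_fst, Finset.smul_sum, smul_smul]
    congr 1
    apply Finset.sum_congr rfl
    intro i _
    congr 1
    ring
  · simp

theorem frame_generated (d : Data A ρ) (X : Fin ρ → E → E) (hX : ∀ i, ContDiff ℂ ω (X i))
    (V : E → E) (hV : Generated X V) :
    Generated (fun (w : W) (z : d.K × E) => frame d X z w)
      (fun z => ((0, V z.2) : d.K × E)) := by
  induction hV with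
  | base i =>
    have h1 := Generated.base (X := fun (w : W) (z : d.K × E) => frame d X z w) (d.e i)
    have h2 : (fun z : d.K × E => frame d X z (d.e i)) = fun z => ((0, X i z.2) : d.K × E) := by
      funext z
      rw [frame_apply, d.πe]
      simp [d.αe]
    rw [h2] at h1
    exact h1
  | bracket F G hF hG ihF ihG =>
    have h1 := Generated.bracket _ _ ihF ihG
    have hd : ∀ V : E → E, Generated X V → ∀ z : d.K × E,
        HasFDerivAt (fun z : d.K × E => ((0, V z.2) : d.K × E))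
          ((0 : d.K × E →L[ℂ] d.K).prod
            ((fderiv ℂ V z.2).comp (ContinuousLinearMap.snd ℂ d.K E))) z := by
      intro V hV z
      have hVd := (generated_contDiff X hX V hV).differentiable (by simp) z.2
      exact (hasFDerivAt_const (0 : d.K) z).prodMk
        (HasFDerivAt.comp z hVd.hasFDerivAt (ContinuousLinearMap.snd ℂ d.K E).hasFDerivAt)
    have h2 : VectorField.lieBracket ℂ (fun z : d.K × E => ((0, F z.2) : d.K × E))
        (fun z => ((0, G z.2) : d.K × E)) =
        fun z => ((0, VectorField.lieBracket ℂ F G z.2) : d.K × E) := by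
      funext z
      rw [VectorField.lieBracket, (hd F hF z).fderiv, (hd G hG z).fderiv]
      simp [VectorField.lieBracket]
    rw [h2] at h1
    exact h1

theorem main_construction [FiniteDimensional ℂ E] (Z : Set W) (d : Data A ρ)
    (hA : ∀ w, A (A w) = 0) (hZ : ∀ (s : ℂ) (z : W), z ∈ Z → z + s • A z ∈ Z) (k : ℕ)
    (X : Fin ρ → E → E) (f : Fin ρ → E → ℂ) (p : E → ℂ)
    (hX : ∀ i, ContDiff ℂ ω (X i)) (hf : ∀ i, ContDiff ℂ ω (f i))
    (rel : ∀ i j y, fderiv ℂ (f i) y (X j y) = if i = j then p y else 0)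
    (hx : ∃ x : Fin ρ → E → ℂ, (∀ i, Differentiable ℂ (x i)) ∧
      ∀ i j y, fderiv ℂ (x i) y (X j y) = if i = j then 1 else 0)
    (hbg : ∀ y, Submodule.span ℂ {v : E | ∃ F : E → E, Generated X F ∧ F y = v} = ⊤)
    (hne : ∃ i y, f i y ≠ 0)
    (hb : ∃ C : ℝ, 0 ≤ C ∧ ∀ i y, ‖y‖ ≤ 1 → ‖f i y‖ ≤ C * ‖y‖ ^ (k + 1)) :
    ∃ n, OccursInOrder W Z k n := by
  refine ⟨Module.finrank ℂ (d.K × E), d.K × E, inferInstance, inferInstance, inferInstance,
    frame d X, sym d f, rfl, frame_contDiff d X hX, frame_injective d X hx, ?_,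
    sym_contDiff d f hf, ?_, ?_, ?_, ?_⟩
  · intro y
    set S := Submodule.span ℂ {v : d.K × E | ∃ F : d.K × E → d.K × E,
      Generated (fun (w : W) (z : d.K × E) => frame d X z w) F ∧ F y = v} with hS
    have hm : ∀ F : d.K × E → d.K × E,
        Generated (fun (w : W) (z : d.K × E) => frame d X z w) F → F y ∈ S :=
      fun F hF => Submodule.subset_span ⟨F, hF, rfl⟩
    rw [eq_top_iff]
    rintro ⟨κ, u⟩ -
    have h1 : ((κ, 0) : d.K × E) ∈ S := by
      have e : frame d X y (κ : W) = ((κ, 0) : d.K × E) := by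
        rw [frame_apply, d.πK]
        simp [d.αK]
      rw [← e]
      exact hm _ (Generated.base (X := fun (w : W) (z : d.K × E) => frame d X z w) (κ : W))
    have h3 : ((0, u) : d.K × E) ∈ S := by
      have hu : u ∈ Submodule.span ℂ {v : E | ∃ F : E → E, Generated X F ∧ F y.2 = v} := by
        rw [hbg]; trivial
      have hmm := Submodule.mem_map_of_mem (f := LinearMap.inr ℂ d.K E) hu
      rw [Submodule.map_span] at hmm
      refine (Submodule.span_le.mpr ?_) hmm
      rintro _ ⟨_, ⟨V, hV, rfl⟩, rfl⟩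
      exact hm _ (frame_generated d X hX V hV)
    have h4 : ((κ, u) : d.K × E) = (κ, 0) + (0, u) := by simp
    rw [h4]
    exact S.add_mem h1 h3
  · obtain ⟨i, y, hy⟩ := hne
    refine ⟨((0, y) : d.K × E), ?_⟩
    intro h
    have h' : ∑ i, f i y • d.r i = 0 := congrArg Prod.fst h
    exact hy (Fintype.linearIndependent_iff.mp d.lin (fun i => f i y) h' i)
  · obtain ⟨C, hC, hb⟩ := hb
    refine ⟨∑ i, C * ‖d.r i‖, ?_⟩
    intro y hy
    have hy2 : ‖y.2‖ ≤ ‖y‖ := norm_snd_le y
    have h3 : ‖sym d f y‖ = ‖∑ i, f i y.2 • d.r i‖ := by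
      simp [sym, Prod.norm_def]
    rw [h3, Finset.sum_mul]
    refine (norm_sum_le _ _).trans (Finset.sum_le_sum fun i _ => ?_)
    rw [norm_smul]
    have h5 := hb i y.2 (hy2.trans hy)
    calc ‖f i y.2‖ * ‖d.r i‖ ≤ (C * ‖y.2‖ ^ (k + 1)) * ‖d.r i‖ := by gcongr
      _ ≤ (C * ‖y‖ ^ (k + 1)) * ‖d.r i‖ := by gcongr
      _ = C * ‖d.r i‖ * ‖y‖ ^ (k + 1) := by ring
  · intro s y
    simp [sym]
  · intro s y
    have hfr : frame d X (y + s • sym d f y) = frame d X y := by
      simp [frame, sym]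
    rw [hfr, ← Set.image_comp]
    set c := s * p y.2 with hc
    ext v
    constructor
    · rintro ⟨z, hz, rfl⟩
      refine ⟨z + c • A z, hZ _ _ hz, ?_⟩
      simp only [Function.comp_apply]
      rw [sym_deriv d X f p hf rel]
    · rintro ⟨z, hz, rfl⟩
      refine ⟨z + (-c) • A z, hZ _ _ hz, ?_⟩
      simp only [Function.comp_apply]
      rw [sym_deriv d X f p hf rel, ← hc]
      congr 1
      rw [map_add, map_smul, hA]
      simp

theorem main_theorem (Z : Set W) (A : W →ₗ[ℂ] W) (hA0 : A ≠ 0) (hA : ∀ w, A (A w) = 0)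
    (hZ : ∀ (s : ℂ) (z : W), z ∈ Z → z + s • A z ∈ Z) (k : ℕ) :
    ∃ n, OccursInOrder W Z k n := by
  obtain ⟨d⟩ := exists_data A hA
  have hρ : 1 ≤ Module.finrank ℂ (LinearMap.range A) := by
    rw [Nat.one_le_iff_ne_zero]
    intro h0
    apply hA0
    rw [Submodule.finrank_eq_zero] at h0
    exact LinearMap.range_eq_bot.mp h0
  obtain ⟨E, _, _, _, X, f, p, hX, hf, rel, hx, hbg, hne, C, hC, hb⟩ :=
    hasOrder (Module.finrank ℂ (LinearMap.range A)) (k + 2) hρ (by omega)
  refine main_construction Z d hA hZ k X f p hX hf rel hx hbg hne ⟨C, hC, fun i y hy => ?_⟩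
  refine (hb i y hy).trans ?_
  have : ‖y‖ ^ (k + 2) ≤ ‖y‖ ^ (k + 1) := pow_le_pow_of_le_one (norm_nonneg _) hy (by omega)
  gcongr

end construction

theorem quadric_aux_iso {q : ℕ} (j k : Fin q) (hjk : j ≠ k) (c : ℂ) (hc : c * c = -1) :
    (Pi.single j 1 + Pi.single k c : Fin q → ℂ) ⬝ᵥ (Pi.single j 1 + Pi.single k c) = 0 := by
  simp [add_dotProduct, hjk, hjk.symm, hc]

/-- every smooth quadric of dimension at least 2 has a square zero rank 2 linear symmetry -/
theorem quadric (q : ℕ) (hq : 4 ≤ q) :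
    ∃ A : (Fin q → ℂ) →ₗ[ℂ] (Fin q → ℂ), Module.finrank ℂ (LinearMap.range A) = 2 ∧
      (∀ w, A (A w) = 0) ∧
      (∀ (s : ℂ) (w : Fin q → ℂ), ∑ i, w i ^ 2 = 0 → ∑ i, (w + s • A w) i ^ 2 = 0) := by
  have h0 : 0 < q := by omega
  have h1 : 1 < q := by omega
  have h2 : 2 < q := by omega
  have h3 : 3 < q := by omega
  set i0 : Fin q := ⟨0, h0⟩ with hi0
  set i1 : Fin q := ⟨1, h1⟩ with hi1
  set i2 : Fin q := ⟨2, h2⟩ with hi2
  set i3 : Fin q := ⟨3, h3⟩ with hi3
  have n01 : i0 ≠ i1 := by simp [hi0, hi1]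
  have n02 : i0 ≠ i2 := by simp [hi0, hi2]
  have n03 : i0 ≠ i3 := by simp [hi0, hi3]
  have n12 : i1 ≠ i2 := by simp [hi1, hi2]
  have n13 : i1 ≠ i3 := by simp [hi1, hi3]
  have n23 : i2 ≠ i3 := by simp [hi2, hi3]
  clear_value i0 i1 i2 i3
  set a : Fin q → ℂ := Pi.single i0 1 + Pi.single i1 Complex.I with ha
  set b : Fin q → ℂ := Pi.single i2 1 + Pi.single i3 Complex.I with hb
  have ha0 : a i0 = 1 := by simp [ha, n01]
  have ha2 : a i2 = 0 := by simp [ha, n02.symm, n12.symm]
  have hb0 : b i0 = 0 := by simp [hb, n02, n03]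
  have hb2 : b i2 = 1 := by simp [hb, n23]
  have haa : a ⬝ᵥ a = 0 := quadric_aux_iso i0 i1 n01 Complex.I Complex.I_mul_I
  have hbb : b ⬝ᵥ b = 0 := quadric_aux_iso i2 i3 n23 Complex.I Complex.I_mul_I
  have hab : a ⬝ᵥ b = 0 := by
    simp [ha, hb, add_dotProduct, n02, n03, n12, n13]
  have hba : b ⬝ᵥ a = 0 := by rw [dotProduct_comm]; exact hab
  let A : (Fin q → ℂ) →ₗ[ℂ] (Fin q → ℂ) :=
    { toFun := fun w => (w ⬝ᵥ a) • b - (w ⬝ᵥ b) • a
      map_add' := by
        intro x y
        simp only [add_dotProduct, add_smul]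
        abel
      map_smul' := by
        intro c x
        simp only [smul_dotProduct, smul_sub, smul_smul, smul_eq_mul, RingHom.id_apply] }
  have hA : ∀ w, A w = (w ⬝ᵥ a) • b - (w ⬝ᵥ b) • a := fun w => rfl
  have hAa : ∀ w, A w ⬝ᵥ a = 0 := by
    intro w
    rw [hA, sub_dotProduct, smul_dotProduct, smul_dotProduct, hba, haa]
    simp
  have hAb : ∀ w, A w ⬝ᵥ b = 0 := by
    intro w
    rw [hA, sub_dotProduct, smul_dotProduct, smul_dotProduct, hbb, hab]
    simp
  refine ⟨A, ?_, ?_, ?_⟩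
  · have hli : LinearIndependent ℂ ![a, b] := by
      rw [LinearIndependent.pair_iff]
      intro s t hst
      have e0 := congrFun hst i0
      have e2 := congrFun hst i2
      simp only [Pi.add_apply, Pi.smul_apply, smul_eq_mul, Pi.zero_apply, ha0, hb0, ha2, hb2] at e0 e2
      constructor
      · simpa using e0
      · simpa using e2
    have hr : LinearMap.range A = Submodule.span ℂ (Set.range ![a, b]) := by
      apply le_antisymm
      · rintro _ ⟨w, rfl⟩
        rw [hA]
        refine Submodule.sub_mem _ (Submodule.smul_mem _ _ (Submodule.subset_span ⟨1, rfl⟩))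
          (Submodule.smul_mem _ _ (Submodule.subset_span ⟨0, rfl⟩))
      · rw [Submodule.span_le]
        rintro _ ⟨i, rfl⟩
        fin_cases i
        · refine ⟨-Pi.single i2 1, ?_⟩
          rw [map_neg, hA, single_dotProduct, single_dotProduct, ha2, hb2]
          simp
        · refine ⟨Pi.single i0 1, ?_⟩
          rw [hA, single_dotProduct, single_dotProduct, ha0, hb0]
          simp
    rw [hr, finrank_span_eq_card hli]
    simp
  · intro w
    rw [hA (A w), hAa, hAb]
    simp
  · intro s w hw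
    have e : ∀ x : Fin q → ℂ, ∑ i, x i ^ 2 = x ⬝ᵥ x := by
      intro x
      unfold dotProduct
      exact Finset.sum_congr rfl fun i _ => by ring
    rw [e] at hw ⊢
    have hwA : A w ⬝ᵥ w = 0 := by
      rw [hA, sub_dotProduct, smul_dotProduct, smul_dotProduct, dotProduct_comm b w,
        dotProduct_comm a w]
      simp only [smul_eq_mul]
      ring
    have hwA' : w ⬝ᵥ A w = 0 := by rw [dotProduct_comm]; exact hwA
    have hAA : A w ⬝ᵥ A w = 0 := by
      conv_lhs => rw [hA w]
      rw [sub_dotProduct, smul_dotProduct, smul_dotProduct, dotProduct_comm b (_ - _),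
        dotProduct_comm a (_ - _), ← hA, hAa, hAb]
      simp
    rw [add_dotProduct, dotProduct_add, dotProduct_add, smul_dotProduct, smul_dotProduct,
      dotProduct_smul, dotProduct_smul, hw, hwA, hwA', hAA]
    simp

theorem quadric_span (q : ℕ) (hq : 4 ≤ q) :
    Submodule.span ℂ {w : Fin q → ℂ | ∑ i, w i ^ 2 = 0} = ⊤ := by
  have e : ∀ x : Fin q → ℂ, ∑ i, x i ^ 2 = x ⬝ᵥ x := by
    intro x
    unfold dotProduct
    exact Finset.sum_congr rfl fun i _ => by ring
  have hj : ∀ j : Fin q, (Pi.single j 1 : Fin q → ℂ) ∈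
      Submodule.span ℂ {w : Fin q → ℂ | ∑ i, w i ^ 2 = 0} := by
    intro j
    haveI : Nontrivial (Fin q) := Fin.nontrivial_iff_two_le.mpr (by omega)
    obtain ⟨k, hk⟩ := exists_ne j
    have m1 : (Pi.single j 1 + Pi.single k Complex.I : Fin q → ℂ) ∈
        Submodule.span ℂ {w : Fin q → ℂ | ∑ i, w i ^ 2 = 0} := by
      apply Submodule.subset_span
      show ∑ i, _ = _
      rw [e]
      exact quadric_aux_iso j k hk.symm _ Complex.I_mul_I
    have m2 : (Pi.single j 1 + Pi.single k (-Complex.I) : Fin q → ℂ) ∈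
        Submodule.span ℂ {w : Fin q → ℂ | ∑ i, w i ^ 2 = 0} := by
      apply Submodule.subset_span
      show ∑ i, _ = _
      rw [e]
      exact quadric_aux_iso j k hk.symm _ (by rw [neg_mul_neg]; exact Complex.I_mul_I)
    have m3 := Submodule.smul_mem _ (1 / 2 : ℂ) (Submodule.add_mem _ m1 m2)
    have e3 : (1 / 2 : ℂ) • ((Pi.single j 1 + Pi.single k Complex.I : Fin q → ℂ) +
        (Pi.single j 1 + Pi.single k (-Complex.I))) = Pi.single j 1 := by
      rw [Pi.single_neg]
      have : (Pi.single j 1 + Pi.single k Complex.I : Fin q → ℂ) +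
        (Pi.single j 1 + -Pi.single k Complex.I) = (2 : ℂ) • Pi.single j 1 := by
        rw [two_smul]; abel
      rw [this, smul_smul]
      norm_num
    rwa [e3] at m3
  rw [eq_top_iff]
  intro w _
  rw [← Finset.univ_sum_single w]
  refine Submodule.sum_mem _ fun i _ => ?_
  have : (Pi.single i (w i) : Fin q → ℂ) = w i • Pi.single i 1 := by
    rw [← Pi.single_smul]
    simp
  rw [this]
  exact Submodule.smul_mem _ _ (hj i)

/-- the Segre varieties: matrices of rank at most 1 -/
theorem segre (m n : ℕ) (hm : 1 ≤ m) (hn : 2 ≤ n) :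
    ∃ A : (Fin m → Fin n → ℂ) →ₗ[ℂ] (Fin m → Fin n → ℂ),
      A ≠ 0 ∧ (∀ w, A (A w) = 0) ∧
      (∀ (s : ℂ) (w : Fin m → Fin n → ℂ), (∀ a b i j, w a i * w b j = w a j * w b i) →
        ∀ a b i j, (w + s • A w) a i * (w + s • A w) b j =
          (w + s • A w) a j * (w + s • A w) b i) := by
  obtain ⟨A, hA⟩ : ∃ A : (Fin m → Fin n → ℂ) →ₗ[ℂ] (Fin m → Fin n → ℂ),
      ∀ w a j, A w a j = if j = ⟨1, hn⟩ then w a ⟨0, by omega⟩ else 0 := by
    refine ⟨{ toFun := fun w a j => if j = ⟨1, hn⟩ then w a ⟨0, by omega⟩ else 0,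
              map_add' := ?_, map_smul' := ?_ }, fun w a j => rfl⟩
    · intro x y
      funext a j
      simp only [Pi.add_apply]
      split_ifs
      · rfl
      · rw [add_zero]
    · intro c x
      funext a j
      simp only [Pi.smul_apply, smul_eq_mul, RingHom.id_apply]
      split_ifs
      · rfl
      · rw [mul_zero]
  refine ⟨A, ?_, ?_, ?_⟩
  · intro h
    have h1 := hA (fun _ _ => 1) ⟨0, hm⟩ ⟨1, hn⟩
    rw [h, if_pos rfl] at h1
    exact zero_ne_one h1
  · intro w
    funext a j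
    rw [hA, hA]
    by_cases h : j = ⟨1, hn⟩
    · rw [if_pos h, if_neg (by intro h2; exact absurd (Fin.mk.inj h2) (by norm_num))]
      rfl
    · rw [if_neg h]
      rfl
  · intro s w h a b i j
    simp only [Pi.add_apply, Pi.smul_apply, smul_eq_mul, hA]
    have h1 := h a b i j
    have h2 := h a b i ⟨0, by omega⟩
    have h3 := h a b ⟨0, by omega⟩ j
    split_ifs
    · linear_combination h1 + s * h2 + s * h3
    · linear_combination h1 + s * h3
    · linear_combination h1 + s * h2
    · linear_combination h1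

theorem segre_span (m n : ℕ) :
    Submodule.span ℂ {w : Fin m → Fin n → ℂ | ∀ a b i j, w a i * w b j = w a j * w b i} = ⊤ := by
  rw [eq_top_iff]
  intro w _
  have hw : w = ∑ a, Pi.single a (w a) := (Finset.univ_sum_single w).symm
  rw [hw]
  refine Submodule.sum_mem _ (fun a _ => Submodule.subset_span ?_)
  intro b c i j
  by_cases hb : b = a
  · subst hb
    by_cases hc : c = b
    · subst hc
      rw [Pi.single_eq_same]
      ring
    · rw [Pi.single_eq_same, Pi.single_eq_of_ne hc]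
      simp
  · rw [Pi.single_eq_of_ne hb]
    simp

/-- Main result. -/
theorem result :
    (∀ (W : Type) [NormedAddCommGroup W] [NormedSpace ℂ W] [FiniteDimensional ℂ W]
      (Z : Set W) (A : W →ₗ[ℂ] W), Submodule.span ℂ Z = ⊤ → A ≠ 0 → (∀ w, A (A w) = 0) →
      (∀ (s : ℂ) (z : W), z ∈ Z → z + s • A z ∈ Z) → OccursInAllOrders W Z) ∧
    (∀ m n : ℕ, 1 ≤ m → 2 ≤ n → OccursInAllOrders (Fin m → Fin n → ℂ)
      {w | ∀ a b i j, w a i * w b j = w a j * w b i}) ∧
    (∀ q : ℕ, 4 ≤ q → OccursInAllOrders (Fin q → ℂ) {w | ∑ i, w i ^ 2 = 0}) := by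
  refine ⟨fun W _ _ _ Z A h1 h2 h3 h4 => ⟨h1, fun k => main_theorem Z A h2 h3 h4 k⟩, ?_, ?_⟩
  · intro m n hm hn
    obtain ⟨A, h2, h3, h4⟩ := segre m n hm hn
    exact ⟨segre_span m n, fun k => main_theorem _ A h2 h3 (fun s z hz => h4 s z hz) k⟩
  · intro q hq
    obtain ⟨A, h2, h3, h4⟩ := quadric q hq
    refine ⟨quadric_span q hq, fun k => main_theorem _ A ?_ h3 (fun s z hz => h4 s z hz) k⟩
    rintro rfl
    rw [LinearMap.range_zero, finrank_bot] at h2
    omega

end Pool.Agent.Results.MP_d19687_ag.SquareZeroSymmetries
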